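import Pool.Agent.Q141.UF.Decomp

/-!
Partitions with distinct nonzero parts as functions and as sets; the two ends of the
coefficient sequence.
-/

open Polynomial Finset

namespace Pool.Q141.UF

variable {b : ℕ}

/-- `mu` is a partition (padded by zeros) contained in `lam` whose nonzero parts are pairwise
distinct. -/
def IsSub (lam mu : Fin b → ℕ) : Prop :=
  Antitone mu ∧ (∀ i, mu i ≤ lam i) ∧ ∀ i j, mu i = mu j → mu i ≠ 0 → i = j

/-- the coefficient of `q^m` -/
noncomputable def cnt (lam : Fin b → ℕ) (m : ℕ) : ℕ :=
  {mu : Fin b → ℕ | IsSub lam mu ∧ ∑ i, mu i = m}.ncard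

open Classical in
/-- the finite set counted by `cnt`. -/
noncomputable def SS (lam : Fin b → ℕ) (m : ℕ) : Finset (Fin b → ℕ) :=
  (Fintype.piFinset fun i => range (lam i + 1)).filter (fun mu => IsSub lam mu ∧ ∑ i, mu i = m)

theorem mem_SS (lam : Fin b → ℕ) (m : ℕ) (mu : Fin b → ℕ) :
    mu ∈ SS lam m ↔ IsSub lam mu ∧ ∑ i, mu i = m := by
  classical
  unfold SS
  rw [mem_filter, Fintype.mem_piFinset]
  constructor
  · exact fun h => h.2
  · intro h
    refine ⟨fun i => ?_, h⟩
    rw [mem_range]
    have := h.1.2.1 i
    omega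

theorem cnt_eq (lam : Fin b → ℕ) (m : ℕ) : cnt lam m = (SS lam m).card := by
  unfold cnt
  rw [← Set.ncard_coe_finset]
  congr 1
  ext mu
  rw [mem_coe, mem_SS, Set.mem_ofPred_eq]

/-- the set of nonzero parts. -/
def Phi (mu : Fin b → ℕ) : Finset ℕ := (univ.filter (fun i => mu i ≠ 0)).image mu

theorem mem_Phi (mu : Fin b → ℕ) (x : ℕ) : x ∈ Phi mu ↔ x ≠ 0 ∧ ∃ i, mu i = x := by
  unfold Phi
  rw [mem_image]
  constructor
  · rintro ⟨i, hi, rfl⟩
    rw [mem_filter] at hi
    exact ⟨hi.2, i, rfl⟩
  · rintro ⟨h, i, rfl⟩
    exact ⟨i, mem_filter.2 ⟨mem_univ _, h⟩, rfl⟩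

theorem sum_Phi {lam mu : Fin b → ℕ} (h : IsSub lam mu) : ∑ x ∈ Phi mu, x = ∑ i, mu i := by
  unfold Phi
  rw [sum_image]
  · exact sum_filter_ne_zero _
  · intro i hi j _ hij
    rw [mem_coe, mem_filter] at hi
    exact h.2.2 i j hij hi.2

theorem card_Phi_filter {lam mu : Fin b → ℕ} (h : IsSub lam mu) {x : ℕ} (hx : 0 < x) :
    ((Phi mu).filter (fun y => x ≤ y)).card = (univ.filter (fun i => x ≤ mu i)).card := by
  have : (Phi mu).filter (fun y => x ≤ y) = (univ.filter (fun i => x ≤ mu i)).image mu := by
    ext y
    rw [mem_filter, mem_Phi, mem_image]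
    constructor
    · rintro ⟨⟨h1, i, rfl⟩, h3⟩
      exact ⟨i, mem_filter.2 ⟨mem_univ _, h3⟩, rfl⟩
    · rintro ⟨i, hi, rfl⟩
      rw [mem_filter] at hi
      exact ⟨⟨by omega, i, rfl⟩, hi.2⟩
  rw [this, card_image_of_injOn]
  intro i hi j _ hij
  rw [mem_coe, mem_filter] at hi
  exact h.2.2 i j hij (by omega)

theorem le_iff_rank {mu : Fin b → ℕ} (hmu : Antitone mu) (x : ℕ) (j : Fin b) :
    x ≤ mu j ↔ (j : ℕ) < (univ.filter (fun i => x ≤ mu i)).card := by
  constructor
  · intro h
    have h1 : Iic j ⊆ univ.filter (fun i => x ≤ mu i) := by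
      intro i hi
      rw [mem_Iic] at hi
      exact mem_filter.2 ⟨mem_univ _, h.trans (hmu hi)⟩
    have h2 := card_le_card h1
    rw [Fin.card_Iic] at h2
    omega
  · intro h
    by_contra hlt
    have h1 : univ.filter (fun i => x ≤ mu i) ⊆ Iio j := by
      intro i hi
      rw [mem_filter] at hi
      rw [mem_Iio]
      by_contra hji
      have := hmu (not_lt.1 hji)
      omega
    have h2 := card_le_card h1
    rw [Fin.card_Iio] at h2
    omega

theorem Phi_inj {lam mu nu : Fin b → ℕ} (h : IsSub lam mu) (h' : IsSub lam nu)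
    (he : Phi mu = Phi nu) : mu = nu := by
  have key : ∀ j x, 0 < x → (x ≤ mu j ↔ x ≤ nu j) := by
    intro j x hx
    rw [le_iff_rank h.1, le_iff_rank h'.1, ← card_Phi_filter h hx, ← card_Phi_filter h' hx, he]
  funext j
  apply le_antisymm
  · rcases Nat.eq_zero_or_pos (mu j) with h0 | h0
    · omega
    · exact (key j _ h0).1 le_rfl
  · rcases Nat.eq_zero_or_pos (nu j) with h0 | h0
    · omega
    · exact (key j _ h0).2 le_rfl

/-- rank of an element from the top -/
def rk (A : Finset ℕ) (x : ℕ) : ℕ := (A.filter (fun y => x ≤ y)).card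

theorem rk_le (A : Finset ℕ) (x : ℕ) : rk A x ≤ A.card := card_filter_le _ _

theorem rk_anti (A : Finset ℕ) {x z : ℕ} (hx : x ∈ A) (h : x < z) : rk A z < rk A x := by
  unfold rk
  apply card_lt_card
  rw [ssubset_iff_of_subset]
  · refine ⟨x, mem_filter.2 ⟨hx, le_rfl⟩, ?_⟩
    rw [mem_filter]; omega
  · intro y hy
    rw [mem_filter] at hy ⊢
    exact ⟨hy.1, by omega⟩

/-- the `j`-th part of the partition with set of parts `A`. -/
def psi (A : Finset ℕ) (j : ℕ) : ℕ := (A.filter (fun x => j < rk A x)).sup id

theorem psi_spec {A : Finset ℕ} {j : ℕ} (h : psi A j ≠ 0) :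
    psi A j ∈ A ∧ rk A (psi A j) = j + 1 := by
  have hne : (A.filter (fun x => j < rk A x)).Nonempty := by
    by_contra hne
    rw [not_nonempty_iff_eq_empty] at hne
    apply h
    unfold psi
    rw [hne]; rfl
  obtain ⟨x, hx, hx'⟩ := exists_mem_eq_sup _ hne id
  have hx2 : psi A j = x := hx'
  rw [mem_filter] at hx
  rw [hx2]
  refine ⟨hx.1, ?_⟩
  by_contra hne2
  have hlt : j + 1 < rk A x := by
    have := hx.2
    omega
  -- elements larger than x
  have hcard : rk A x = (A.filter (fun y => x < y)).card + 1 := by
    unfold rk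
    have : A.filter (fun y => x ≤ y) = insert x (A.filter (fun y => x < y)) := by
      ext y
      rw [mem_insert, mem_filter, mem_filter]
      constructor
      · rintro ⟨h1, h2⟩
        rcases h2.eq_or_lt with h3 | h3
        · exact Or.inl h3.symm
        · exact Or.inr ⟨h1, h3⟩
      · rintro (h1 | h1)
        · rw [h1]; exact ⟨hx.1, le_rfl⟩
        · exact ⟨h1.1, h1.2.le⟩
    rw [this, card_insert_of_notMem]
    rw [mem_filter]; omega
  have hne3 : (A.filter (fun y => x < y)).Nonempty := by
    rw [← card_pos]; omega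
  set x' := (A.filter (fun y => x < y)).min' hne3 with hx'def
  have hx'mem := min'_mem _ hne3
  rw [← hx'def, mem_filter] at hx'mem
  have hrk' : rk A x' = (A.filter (fun y => x < y)).card := by
    unfold rk
    congr 1
    ext y
    rw [mem_filter, mem_filter]
    constructor
    · rintro ⟨h1, h2⟩
      exact ⟨h1, lt_of_lt_of_le hx'mem.2 h2⟩
    · rintro ⟨h1, h2⟩
      exact ⟨h1, min'_le _ _ (mem_filter.2 ⟨h1, h2⟩)⟩
  have hmem : x' ∈ A.filter (fun x => j < rk A x) := by
    rw [mem_filter]
    exact ⟨hx'mem.1, by omega⟩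
  have := le_sup (f := id) hmem
  have h4 : id x' ≤ psi A j := this
  rw [hx2] at h4
  simp only [id] at h4
  omega

theorem psi_rk {A : Finset ℕ} {x : ℕ} (hx : x ∈ A) : psi A (rk A x - 1) = x := by
  have hpos : 0 < rk A x := by
    unfold rk
    rw [card_pos]
    exact ⟨x, mem_filter.2 ⟨hx, le_rfl⟩⟩
  unfold psi
  apply le_antisymm
  · apply Finset.sup_le
    intro z hz
    rw [mem_filter] at hz
    simp only [id]
    by_contra hlt
    have := rk_anti A hx (not_le.1 hlt)
    omega
  · have hmem : x ∈ A.filter (fun z => rk A x - 1 < rk A z) := by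
      rw [mem_filter]; exact ⟨hx, by omega⟩
    exact le_sup (f := id) hmem

theorem cnt_coeff (lam : Fin b → ℕ) (n : ℕ) (hn : ∀ i, lam i ≤ n) (m : ℕ) :
    (cnt lam m : ℤ) = (FF lam n).coeff m := by
  unfold FF
  rw [coeff_sum_X_pow, cnt_eq]
  congr 1
  refine card_nbij Phi ?_ ?_ ?_
  · intro mu hmu
    rw [mem_coe, mem_SS] at hmu
    obtain ⟨h, hs⟩ := hmu
    rw [mem_coe, mem_filter]
    refine ⟨?_, (sum_Phi h).trans hs⟩
    unfold VV
    rw [mem_filter, mem_powerset]
    refine ⟨?_, ?_, ?_⟩
    · intro x hx
      rw [mem_Phi] at hx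
      obtain ⟨h1, i, rfl⟩ := hx
      rw [mem_Icc]
      have := h.2.1 i
      have := hn i
      omega
    · unfold Phi
      refine card_image_le.trans ((card_filter_le _ _).trans ?_)
      rw [card_univ, Fintype.card_fin]
    · intro i
      have hsub : (Phi mu).filter (fun x => lam i < x) ⊆ (Iio i).image mu := by
        intro x hx
        rw [mem_filter, mem_Phi] at hx
        obtain ⟨⟨h1, j, rfl⟩, h3⟩ := hx
        rw [mem_image]
        refine ⟨j, ?_, rfl⟩
        rw [mem_Iio]
        by_contra hji
        have := h.1 (not_lt.1 hji)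
        have := h.2.1 i
        omega
      refine (card_le_card hsub).trans (card_image_le.trans ?_)
      rw [Fin.card_Iio]
  · intro mu hmu nu hnu he
    rw [mem_coe, mem_SS] at hmu hnu
    exact Phi_inj hmu.1 hnu.1 he
  · intro A hA
    rw [mem_coe, mem_filter] at hA
    obtain ⟨hA, hs⟩ := hA
    unfold VV at hA
    rw [mem_filter, mem_powerset] at hA
    obtain ⟨hA1, hA2, hA3⟩ := hA
    have hsub : IsSub lam (fun j : Fin b => psi A j) := by
      refine ⟨?_, ?_, ?_⟩
      · intro i j hij
        simp only
        unfold psi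
        apply Finset.sup_mono
        intro x hx
        rw [mem_filter] at hx ⊢
        exact ⟨hx.1, lt_of_le_of_lt hij hx.2⟩
      · intro j
        simp only
        unfold psi
        apply Finset.sup_le
        intro x hx
        rw [mem_filter] at hx
        simp only [id]
        by_contra hlt
        have h1 := hA3 j
        have h2 : rk A x ≤ (A.filter (fun x => lam j < x)).card := by
          unfold rk
          apply card_le_card
          intro y hy
          rw [mem_filter] at hy ⊢
          exact ⟨hy.1, by omega⟩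
        omega
      · intro i j hij h0
        simp only at hij h0
        have h1 := (psi_spec h0).2
        have h2 := (psi_spec (hij ▸ h0)).2
        rw [hij] at h1
        apply Fin.ext
        omega
    have hPhi : Phi (fun j : Fin b => psi A j) = A := by
      ext x
      rw [mem_Phi]
      constructor
      · rintro ⟨h1, i, rfl⟩
        exact (psi_spec h1).1
      · intro hx
        have h1 := mem_Icc.1 (hA1 hx)
        have hpos : 0 < rk A x := by
          unfold rk
          rw [card_pos]
          exact ⟨x, mem_filter.2 ⟨hx, le_rfl⟩⟩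
        have h2 := rk_le A x
        exact ⟨by omega, ⟨rk A x - 1, by omega⟩, psi_rk hx⟩
    refine ⟨fun j : Fin b => psi A j, ?_, hPhi⟩
    rw [mem_coe, mem_SS]
    refine ⟨hsub, ?_⟩
    rw [← sum_Phi hsub, hPhi, hs]

/-- left end -/
theorem cnt_left (lam : Fin b → ℕ) (i0 : Fin b) (hi0 : (i0 : ℕ) = 0) (m : ℕ) (hm : m < lam i0) :
    cnt lam m ≤ cnt lam (m + 1) := by
  rw [cnt_eq, cnt_eq]
  refine card_le_card_of_injOn (fun mu => Function.update mu i0 (mu i0 + 1)) ?_ ?_
  · intro mu hmu
    rw [mem_coe, mem_SS] at hmu
    obtain ⟨⟨h1, h2, h3⟩, hs⟩ := hmu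
    have hmax : ∀ i, mu i ≤ mu i0 := fun i => h1 (by rw [Fin.le_def]; omega)
    rw [mem_coe, mem_SS]
    beta_reduce
    refine ⟨⟨?_, ?_, ?_⟩, ?_⟩
    · intro i j hij
      by_cases hj : j = i0
      · have hi : i = i0 := by
          apply Fin.ext
          rw [hj, Fin.le_def] at hij
          omega
        rw [hi, hj]
      · by_cases hi : i = i0
        · rw [hi, Function.update_self, Function.update_of_ne hj]
          have := hmax j
          omega
        · rw [Function.update_of_ne hj, Function.update_of_ne hi]
          exact h1 hij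
    · intro i
      by_cases hi : i = i0
      · rw [hi, Function.update_self]
        have : mu i0 ≤ ∑ i, mu i := single_le_sum (fun _ _ => Nat.zero_le _) (mem_univ _)
        omega
      · rw [Function.update_of_ne hi]; exact h2 i
    · intro i j hij h0
      by_cases hj : j = i0
      · by_cases hi : i = i0
        · rw [hi, hj]
        · rw [hj, Function.update_self, Function.update_of_ne hi] at hij
          have := hmax i
          omega
      · by_cases hi : i = i0
        · rw [hi, Function.update_self, Function.update_of_ne hj] at hij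
          have := hmax j
          omega
        · rw [Function.update_of_ne hj, Function.update_of_ne hi] at hij
          rw [Function.update_of_ne hi] at h0
          exact h3 i j hij h0
    · rw [sum_update_of_mem (mem_univ _)]
      have := sum_sdiff (subset_univ ({i0} : Finset (Fin b))) (f := mu)
      rw [sum_singleton] at this
      omega
  · intro mu _ nu _ he
    funext i
    have := congrFun he i
    simp only at this
    by_cases hi : i = i0
    · rw [hi, Function.update_self, Function.update_self] at this
      rw [hi]; omega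
    · rwa [Function.update_of_ne hi, Function.update_of_ne hi] at this

/-- right end -/
theorem cnt_right (lam : Fin b → ℕ) (l : Fin b) (hl : (l : ℕ) + 1 = b) (m : ℕ)
    (hm : ∑ i, lam i - lam l < m + 1) :
    cnt lam (m + 1) ≤ cnt lam m := by
  rw [cnt_eq, cnt_eq]
  have hpos : ∀ mu ∈ SS lam (m + 1), 0 < mu l := by
    intro mu hmu
    rw [mem_SS] at hmu
    obtain ⟨⟨h1, h2, h3⟩, hs⟩ := hmu
    have e1 := sum_sdiff (subset_univ ({l} : Finset (Fin b))) (f := mu)
    have e2 := sum_sdiff (subset_univ ({l} : Finset (Fin b))) (f := lam)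
    rw [sum_singleton] at e1 e2
    have e3 : ∑ x ∈ univ \ {l}, mu x ≤ ∑ x ∈ univ \ {l}, lam x := sum_le_sum fun i _ => h2 i
    omega
  refine card_le_card_of_injOn (fun mu => Function.update mu l (mu l - 1)) ?_ ?_
  · intro mu hmu
    have hp := hpos mu hmu
    rw [mem_coe, mem_SS] at hmu
    obtain ⟨⟨h1, h2, h3⟩, hs⟩ := hmu
    have hmin : ∀ i, mu l ≤ mu i := fun i => h1 (by rw [Fin.le_def]; omega)
    rw [mem_coe, mem_SS]
    beta_reduce
    refine ⟨⟨?_, ?_, ?_⟩, ?_⟩
    · intro i j hij
      by_cases hi : i = l
      · have hj : j = l := by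
          apply Fin.ext
          rw [hi, Fin.le_def] at hij
          omega
        rw [hi, hj]
      · by_cases hj : j = l
        · rw [hj, Function.update_self, Function.update_of_ne hi]
          have := hmin i
          omega
        · rw [Function.update_of_ne hj, Function.update_of_ne hi]
          exact h1 hij
    · intro i
      by_cases hi : i = l
      · rw [hi, Function.update_self]
        have := h2 l
        omega
      · rw [Function.update_of_ne hi]; exact h2 i
    · intro i j hij h0
      by_cases hj : j = l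
      · by_cases hi : i = l
        · rw [hi, hj]
        · rw [hj, Function.update_self, Function.update_of_ne hi] at hij
          have := hmin i
          omega
      · by_cases hi : i = l
        · rw [hi, Function.update_self, Function.update_of_ne hj] at hij
          have := hmin j
          omega
        · rw [Function.update_of_ne hj, Function.update_of_ne hi] at hij
          rw [Function.update_of_ne hi] at h0
          exact h3 i j hij h0
    · rw [sum_update_of_mem (mem_univ _)]
      have := sum_sdiff (subset_univ ({l} : Finset (Fin b))) (f := mu)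
      rw [sum_singleton] at this
      omega
  · intro mu hmu nu hnu he
    have hp1 := hpos mu hmu
    have hp2 := hpos nu hnu
    funext i
    have := congrFun he i
    simp only at this
    by_cases hi : i = l
    · rw [hi, Function.update_self, Function.update_self] at this
      rw [hi]; omega
    · rwa [Function.update_of_ne hi, Function.update_of_ne hi] at this

end Pool.Q141.UF
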