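import Pool.Agent.Q141.UF.Norms

/-!
Bounds for the differences of the elementary symmetric polynomials `e_s(q, ..., q^L)` and for
`s! e_s - p_1^s`.
-/

open Polynomial Finset

namespace Pool.Q141.UF

theorem sb_subsets {S : Finset ℕ} {a : ℕ} {T : Finset (Finset ℕ)} (hT : T ⊆ powersetCard a S) :
    SB (∑ B ∈ T, X ^ (∑ x ∈ B, x)) ((S.card : ℝ) ^ (a - 1)) := by
  classical
  intro m
  rw [coeff_sum_X_pow]
  push_cast
  rw [Nat.abs_cast]
  rcases Nat.eq_zero_or_pos a with ha | ha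
  · subst ha
    have : (T.filter (fun B => ∑ x ∈ B, x = m)).card ≤ 1 := by
      rw [card_le_one]
      intro A hA B hB
      have h1 := hT (mem_filter.1 hA).1
      have h2 := hT (mem_filter.1 hB).1
      rw [powersetCard_zero, mem_singleton] at h1 h2
      rw [h1, h2]
    simpa using (by exact_mod_cast this : ((T.filter (fun B => ∑ x ∈ B, x = m)).card : ℝ) ≤ 1)
  · have h1 : (T.filter (fun B => ∑ x ∈ B, x = m)).card ≤ (powersetCard (a - 1) S).card := by
      have hne : ∀ B ∈ T.filter (fun B => ∑ x ∈ B, x = m), B.Nonempty := by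
        intro B hB
        have := mem_powersetCard.1 (hT (mem_filter.1 hB).1)
        rw [← card_pos]; omega
      let c : Finset ℕ → ℕ := fun B => if h : B.Nonempty then h.choose else 0
      have hc : ∀ B ∈ T.filter (fun B => ∑ x ∈ B, x = m), c B ∈ B := by
        intro B hB
        have h := hne B hB
        simp only [c, dif_pos h]
        exact h.choose_spec
      refine card_le_card_of_injOn (fun B => B.erase (c B)) ?_ ?_
      · intro B hB
        have h := mem_powersetCard.1 (hT (mem_filter.1 (mem_coe.1 hB)).1)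
        rw [mem_coe, mem_powersetCard]
        refine ⟨(erase_subset _ _).trans h.1, ?_⟩
        rw [card_erase_of_mem (hc B hB), h.2]
      · intro A hA B hB hAB
        have hA' := hc A hA
        have hB' := hc B hB
        simp only at hAB
        have s1 := add_sum_erase A (fun x => x) hA'
        have s2 := add_sum_erase B (fun x => x) hB'
        have e1 := (mem_filter.1 (mem_coe.1 hA)).2
        have e2 := (mem_filter.1 (mem_coe.1 hB)).2
        rw [hAB] at s1
        have : c A = c B := by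
          omega
        rw [← insert_erase hA', ← insert_erase hB', hAB, this]
    rw [card_powersetCard] at h1
    have h2 := h1.trans (Nat.choose_le_pow S.card (a - 1))
    exact_mod_cast h2

theorem ob_subsets {S : Finset ℕ} {a : ℕ} {T : Finset (Finset ℕ)} (hT : T ⊆ powersetCard a S) :
    OB (∑ B ∈ T, X ^ (∑ x ∈ B, x)) ((S.card : ℝ) ^ a) := by
  refine OB.card.mono ?_
  have h1 := card_le_card hT
  rw [card_powersetCard] at h1
  exact_mod_cast h1.trans (Nat.choose_le_pow S.card a)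

theorem sb_es (L s : ℕ) : SB (es L s) ((L : ℝ) ^ (s - 1)) := by
  have := sb_subsets (S := Icc 1 L) (a := s) (T := powersetCard s (Icc 1 L)) (subset_refl _)
  simpa [es] using this

theorem ob_es (L s : ℕ) : OB (es L s) ((L : ℝ) ^ s) := by
  have := ob_subsets (S := Icc 1 L) (a := s) (T := powersetCard s (Icc 1 L)) (subset_refl _)
  simpa [es] using this

theorem es_zero (L : ℕ) : es L 0 = 1 := by
  simp [es]

theorem es_one (L : ℕ) : es L 1 = ps L 1 := by
  unfold es ps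
  rw [powersetCard_one, sum_map]
  simp

/-- `D^j e_t` for `t ≤ 1`, `j ≥ 1`: bounded multiplier. -/
theorem ob_D_es_le_one {L t j : ℕ} (ht : t ≤ 1) (hj : 1 ≤ j) :
    OB (D ^ j * es L t) (2 ^ j) := by
  interval_cases t
  · rw [es_zero, mul_one]; exact ob_D_pow j
  · rw [es_one]
    obtain ⟨i, rfl⟩ : ∃ i, j = i + 1 := ⟨j - 1, by omega⟩
    rw [pow_succ, mul_assoc, pow_succ]
    exact OB.mul (by positivity) (ob_D_pow i) (ob_D_mul_ps_one L)

theorem SB.sign {f : ℤ[X]} {A : ℝ} (k : ℕ) (h : SB f A) : SB ((-1) ^ k * f) A := by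
  rcases neg_one_pow_eq_or ℤ[X] k with h1 | h1
  · rw [h1, one_mul]; exact h
  · rw [h1, neg_one_mul]; exact h.neg

theorem one_le_pow_L {L : ℕ} (hL : 1 ≤ L) (k : ℕ) : (1 : ℝ) ≤ (L : ℝ) ^ k :=
  one_le_pow₀ (by exact_mod_cast hL)

theorem pow_L_mono {L : ℕ} (hL : 1 ≤ L) {k l : ℕ} (h : k ≤ l) : (L : ℝ) ^ k ≤ (L : ℝ) ^ l :=
  pow_le_pow_right₀ (by exact_mod_cast hL) h

/-- bounds for `D^j e_s`, `j ≤ 2`. -/
theorem sb_D_es (s : ℕ) : ∀ j ≤ 2, ∀ L : ℕ, 1 ≤ L →
    SB (D ^ j * es L s) (2 ^ (s + 2) * (L : ℝ) ^ (s - 1 - j)) := by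
  induction s using Nat.strong_induction_on with
  | _ s ih =>
  intro j hj L hL
  have hLr : (1 : ℝ) ≤ L := by exact_mod_cast hL
  have hL0 : (0 : ℝ) ≤ L := by positivity
  rcases Nat.eq_zero_or_pos j with hj0 | hj0
  · subst hj0
    rw [pow_zero, one_mul]
    refine (sb_es L s).mono ?_
    have h1 : (1 : ℝ) ≤ 2 ^ (s + 2) := one_le_pow₀ (by norm_num)
    have h2 : (0 : ℝ) ≤ (L : ℝ) ^ (s - 1) := by positivity
    simp only [Nat.sub_zero]
    nlinarith
  rcases Nat.lt_or_ge s 2 with hs | hs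
  · have h1 := (ob_D_es_le_one (L := L) (t := s) (j := j) (by omega) hj0).toSB
    refine h1.mono ?_
    have h2 : (2 : ℝ) ^ j ≤ 2 ^ (s + 2) := pow_le_pow_right₀ (by norm_num) (by omega)
    have h3 := one_le_pow_L hL (s - 1 - j)
    have h4 : (0 : ℝ) ≤ 2 ^ (s + 2) := by positivity
    nlinarith
  -- the general case
  apply SB.of_natMul s (by omega)
  have hrw : (s : ℤ[X]) * (D ^ j * es L s) =
      ∑ t ∈ range s, (-1) ^ (s + 1 + t) * (D ^ j * (es L t * ps L (s - t))) := by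
    rw [mul_left_comm, newton, mul_sum]
    refine sum_congr rfl fun t _ => ?_
    ring
  rw [hrw]
  obtain ⟨r, rfl⟩ : ∃ r, s = r + 1 := ⟨s - 1, by omega⟩
  rw [sum_range_succ]
  -- the last term
  have hlast : SB ((-1) ^ (r + 1 + 1 + r) * (D ^ j * (es L r * ps L (r + 1 - r))))
      (2 * (2 ^ (r + 2) * (L : ℝ) ^ (r + 1 - 1 - j))) := by
    apply SB.sign
    have e1 : r + 1 - r = 1 := by omega
    rw [e1]
    obtain ⟨i, rfl⟩ : ∃ i, j = i + 1 := ⟨j - 1, by omega⟩
    have e2 : D ^ (i + 1) * (es L r * ps L 1) = (D ^ i * es L r) * (D * ps L 1) := by ring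
    rw [e2]
    have h1 := ih r (by omega) i (by omega) L hL
    have h2 := h1.mul (ob_D_mul_ps_one L)
    refine h2.mono ?_
    have e3 : r + 1 - 1 - (i + 1) = r - 1 - i := by omega
    rw [e3]
    linarith
  -- the other terms
  have hoth : ∀ t ∈ range r, SB ((-1) ^ (r + 1 + 1 + t) * (D ^ j * (es L t * ps L (r + 1 - t))))
      (2 ^ (r + 2) * (L : ℝ) ^ (r + 1 - 1 - j)) := by
    intro t ht
    rw [mem_range] at ht
    apply SB.sign
    by_cases hc : j + 2 ≤ r + 1
    · have h1 := ih t (by omega) j hj L hL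
      have h2 := h1.mul (ob_ps L (r + 1 - t))
      have e2 : D ^ j * (es L t * ps L (r + 1 - t)) = (D ^ j * es L t) * ps L (r + 1 - t) := by
        ring
      rw [e2]
      refine h2.mono ?_
      have h3 : (2 : ℝ) ^ (t + 2) ≤ 2 ^ (r + 2) := pow_le_pow_right₀ (by norm_num) (by omega)
      have h4 : (L : ℝ) ^ (t - 1 - j) * L ≤ (L : ℝ) ^ (r + 1 - 1 - j) := by
        rw [← pow_succ]
        exact pow_L_mono hL (by omega)
      calc (2 : ℝ) ^ (t + 2) * (L : ℝ) ^ (t - 1 - j) * L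
          = 2 ^ (t + 2) * ((L : ℝ) ^ (t - 1 - j) * L) := by ring
        _ ≤ 2 ^ (r + 2) * (L : ℝ) ^ (r + 1 - 1 - j) := by
          apply mul_le_mul h3 h4 (by positivity) (by positivity)
    · have h1 := ob_D_es_le_one (L := L) (t := t) (j := j) (by omega) hj0
      have h2 := (sb_ps (L := L) (i := r + 1 - t) (by omega)).mul h1
      have e2 : D ^ j * (es L t * ps L (r + 1 - t)) = ps L (r + 1 - t) * (D ^ j * es L t) := by
        ring
      rw [e2]
      refine h2.mono ?_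
      have h2 : (2 : ℝ) ^ j ≤ 2 ^ (r + 2) := pow_le_pow_right₀ (by norm_num) (by omega)
      have h3 := one_le_pow_L hL (r + 1 - 1 - j)
      have h4 : (0 : ℝ) ≤ 2 ^ (r + 2) := by positivity
      nlinarith
  have hsum := (SB.sum_const hoth).add hlast
  refine hsum.mono ?_
  rw [card_range]
  have h5 : (0 : ℝ) ≤ 2 ^ (r + 2) * (L : ℝ) ^ (r + 1 - 1 - j) := by positivity
  have h6 : (2 : ℝ) ^ (r + 1 + 2) = 2 * 2 ^ (r + 2) := by ring
  have hr1 : (1 : ℝ) ≤ r := by exact_mod_cast (by omega : 1 ≤ r)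
  rw [h6]
  have h7 : (0 : ℝ) ≤ (r : ℝ) * (2 ^ (r + 2) * (L : ℝ) ^ (r + 1 - 1 - j)) := by positivity
  push_cast at h5 h7 ⊢
  nlinarith

/-- `s! e_s - p_1^s`. -/
noncomputable def W (L s : ℕ) : ℤ[X] := (s.factorial : ℤ[X]) * es L s - ps L 1 ^ s

/-- the remainder in Newton's identity. -/
noncomputable def R (L s : ℕ) : ℤ[X] :=
  ∑ t ∈ range (s - 1), (-1) ^ (s + 1 + t) * (es L t * ps L (s - t))

theorem W_succ (L s : ℕ) : W L (s + 1) = ps L 1 * W L s + (s.factorial : ℤ[X]) * R L (s + 1) := by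
  unfold W R
  have h := newton L (s + 1)
  rw [sum_range_succ] at h
  have e1 : s + 1 - s = 1 := by omega
  have e2 : ((-1 : ℤ[X])) ^ (s + 1 + 1 + s) = 1 := by
    rw [show s + 1 + 1 + s = 2 * (s + 1) by ring, pow_mul]; simp
  rw [e1, e2, one_mul] at h
  have e3 : s + 1 - 1 = s := rfl
  rw [e3, Nat.factorial_succ]
  push_cast at h ⊢
  have : ((s : ℤ[X]) + 1) * (s.factorial : ℤ[X]) * es L (s + 1) =
      (s.factorial : ℤ[X]) * (((s : ℤ[X]) + 1) * es L (s + 1)) := by ring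
  rw [this, h]
  ring

theorem sb_R {j : ℕ} (hj : j ≤ 2) (s : ℕ) (hs : 2 ≤ s) (hjs : j ≤ 1 ∨ 5 ≤ s) (L : ℕ) (hL : 1 ≤ L) :
    SB (D ^ j * R L s) (s * 2 ^ s * (L : ℝ) ^ (s - 2 - j)) := by
  have hLr : (1 : ℝ) ≤ L := by exact_mod_cast hL
  unfold R
  rw [mul_sum]
  have hterm : ∀ t ∈ range (s - 1), SB (D ^ j * ((-1) ^ (s + 1 + t) * (es L t * ps L (s - t))))
      (2 ^ s * (L : ℝ) ^ (s - 2 - j)) := by
    intro t ht
    rw [mem_range] at ht
    rw [mul_left_comm]
    apply SB.sign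
    by_cases hc : t = 0 ∨ (t = 1 ∧ 1 ≤ j)
    · have h1 : OB (D ^ j * es L t) (2 ^ j) := by
        rcases Nat.eq_zero_or_pos j with h0 | h0
        · subst h0
          rcases hc with hc | hc
          · subst hc; rw [es_zero]; simpa using OB.one
          · omega
        · exact ob_D_es_le_one (by rcases hc with hc | hc <;> omega) h0
      have h2 := (sb_ps (L := L) (i := s - t) (by omega)).mul h1
      have e2 : D ^ j * (es L t * ps L (s - t)) = ps L (s - t) * (D ^ j * es L t) := by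
        ring
      rw [e2]
      refine h2.mono ?_
      have h2 : (2 : ℝ) ^ j ≤ 2 ^ s := pow_le_pow_right₀ (by norm_num) (by omega)
      have h3 := one_le_pow_L hL (s - 2 - j)
      have h4 : (0 : ℝ) ≤ 2 ^ s := by positivity
      nlinarith
    · have h1 := sb_D_es t j hj L hL
      have h2 := h1.mul (ob_ps L (s - t))
      have e2 : D ^ j * (es L t * ps L (s - t)) = (D ^ j * es L t) * ps L (s - t) := by
        ring
      rw [e2]
      refine h2.mono ?_
      have h3 : (2 : ℝ) ^ (t + 2) ≤ 2 ^ s := pow_le_pow_right₀ (by norm_num) (by omega)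
      have h4 : (L : ℝ) ^ (t - 1 - j) * L ≤ (L : ℝ) ^ (s - 2 - j) := by
        rw [← pow_succ]
        exact pow_L_mono hL (by omega)
      calc (2 : ℝ) ^ (t + 2) * (L : ℝ) ^ (t - 1 - j) * L
          = 2 ^ (t + 2) * ((L : ℝ) ^ (t - 1 - j) * L) := by ring
        _ ≤ 2 ^ s * (L : ℝ) ^ (s - 2 - j) := by
          apply mul_le_mul h3 h4 (by positivity) (by positivity)
  refine (SB.sum_const hterm).mono ?_
  rw [card_range, mul_assoc]
  apply mul_le_mul_of_nonneg_right _ (by positivity)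
  exact_mod_cast (by omega : s - 1 ≤ s)

theorem W_zero (L : ℕ) : W L 0 = 0 := by simp [W, es_zero]

theorem W_one (L : ℕ) : W L 1 = 0 := by simp [W, es_one]

theorem sb_W0 (s : ℕ) : ∃ C : ℝ, ∀ L : ℕ, 1 ≤ L → SB (W L s) (C * (L : ℝ) ^ (s - 2)) := by
  induction s with
  | zero => exact ⟨0, fun L _ => by rw [W_zero, zero_mul]; exact SB.zero⟩
  | succ s ih =>
    rcases Nat.eq_zero_or_pos s with h0 | h0
    · subst h0
      exact ⟨0, fun L _ => by rw [W_one, zero_mul]; exact SB.zero⟩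
    rcases Nat.lt_or_ge s 2 with hs | hs
    · have : s = 1 := by omega
      subst this
      refine ⟨2 * 2 ^ 2, fun L hL => ?_⟩
      rw [W_succ, W_one, mul_zero, zero_add]
      have := sb_R (j := 0) (by omega) 2 le_rfl (Or.inl (by omega)) L hL
      simpa using this
    · obtain ⟨C, hC⟩ := ih
      refine ⟨C + s.factorial * ((s + 1 : ℕ) * 2 ^ (s + 1)), fun L hL => ?_⟩
      rw [W_succ]
      have h1 := (hC L hL).mul' (ob_ps L 1)
      have h2 := (sb_R (j := 0) (by omega) (s + 1) (by omega) (Or.inl (by omega)) L hL)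
      rw [pow_zero, one_mul] at h2
      refine (h1.add (h2.natMul s.factorial)).mono ?_
      have e1 : (L : ℝ) ^ (s - 2) * L = (L : ℝ) ^ (s + 1 - 2) := by
        rw [← pow_succ]; congr 1; omega
      have e2 : s + 1 - 2 - 0 = s + 1 - 2 := rfl
      rw [e2, mul_assoc C, e1]
      apply le_of_eq
      ring

theorem sb_W1 (s : ℕ) (hs : 3 ≤ s) :
    ∃ C : ℝ, ∀ L : ℕ, 1 ≤ L → SB (D * W L s) (C * (L : ℝ) ^ (s - 3)) := by
  obtain ⟨r, rfl⟩ : ∃ r, s = r + 1 := ⟨s - 1, by omega⟩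
  obtain ⟨C, hC⟩ := sb_W0 r
  refine ⟨2 * C + r.factorial * ((r + 1 : ℕ) * 2 ^ (r + 1)), fun L hL => ?_⟩
  have h1 := (hC L hL).mul' (ob_D_mul_ps_one L)
  have h2 := (sb_R (j := 1) (by omega) (r + 1) (by omega) (Or.inl le_rfl) L hL)
  rw [pow_one] at h2
  have e0 : D * W L (r + 1) = (D * ps L 1) * W L r + (r.factorial : ℤ[X]) * (D * R L (r + 1)) := by
    rw [W_succ]; ring
  rw [e0]
  refine (h1.add (h2.natMul r.factorial)).mono ?_
  have e1 : r - 2 = r + 1 - 3 := by omega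
  have e2 : r + 1 - 2 - 1 = r + 1 - 3 := by omega
  rw [e2, e1]
  apply le_of_eq
  ring

theorem sb_W2 (s : ℕ) (hs : 5 ≤ s) :
    ∃ C : ℝ, ∀ L : ℕ, 1 ≤ L → SB (D ^ 2 * W L s) (C * (L : ℝ) ^ (s - 4)) := by
  obtain ⟨r, rfl⟩ : ∃ r, s = r + 1 := ⟨s - 1, by omega⟩
  obtain ⟨C, hC⟩ := sb_W1 r (by omega)
  refine ⟨2 * C + r.factorial * ((r + 1 : ℕ) * 2 ^ (r + 1)), fun L hL => ?_⟩
  have h1 := (hC L hL).mul' (ob_D_mul_ps_one L)
  have h2 := (sb_R (j := 2) (by omega) (r + 1) (by omega) (Or.inr hs) L hL)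
  have e0 : D ^ 2 * W L (r + 1) = (D * ps L 1) * (D * W L r)
      + (r.factorial : ℤ[X]) * (D ^ 2 * R L (r + 1)) := by
    rw [W_succ]; ring
  rw [e0]
  refine (h1.add (h2.natMul r.factorial)).mono ?_
  have e1 : r - 3 = r + 1 - 4 := by omega
  have e2 : r + 1 - 2 - 2 = r + 1 - 4 := by omega
  rw [e2, e1]
  apply le_of_eq
  ring

end Pool.Q141.UF
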