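import Pool.Agent.Q141.UF.Bounds

/-!
Decomposition of the generating function of the sets of parts by cutting at the smallest part
of `lam`, and the error bounds.
-/

open Polynomial Finset

namespace Pool.Q141.UF

variable {b : ℕ}

/-- the containment condition for a set of parts -/
def Good (lam : Fin b → ℕ) (A : Finset ℕ) : Prop :=
  ∀ i : Fin b, (A.filter (fun x => lam i < x)).card ≤ i

instance (lam : Fin b → ℕ) (A : Finset ℕ) : Decidable (Good lam A) := by
  unfold Good; infer_instance

/-- the sets of parts -/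
def VV (lam : Fin b → ℕ) (n : ℕ) : Finset (Finset ℕ) :=
  (Icc 1 n).powerset.filter (fun A => A.card ≤ b ∧ Good lam A)

/-- the generating function -/
noncomputable def FF (lam : Fin b → ℕ) (n : ℕ) : ℤ[X] := ∑ A ∈ VV lam n, X ^ (∑ x ∈ A, x)

/-- the parts above `L` -/
noncomputable def GG (lam : Fin b → ℕ) (n L a : ℕ) : ℤ[X] :=
  ∑ B ∈ (powersetCard a (Ioc L n)).filter (Good lam), X ^ (∑ x ∈ B, x)

theorem sb_GG (lam : Fin b → ℕ) (n L a : ℕ) :
    SB (GG lam n L a) (((n - L : ℕ) : ℝ) ^ (a - 1)) := by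
  have := sb_subsets (S := Ioc L n) (a := a)
    (T := (powersetCard a (Ioc L n)).filter (Good lam)) (filter_subset _ _)
  rwa [Nat.card_Ioc] at this

theorem ob_GG (lam : Fin b → ℕ) (n L a : ℕ) :
    OB (GG lam n L a) (((n - L : ℕ) : ℝ) ^ a) := by
  have := ob_subsets (S := Ioc L n) (a := a)
    (T := (powersetCard a (Ioc L n)).filter (Good lam)) (filter_subset _ _)
  rwa [Nat.card_Ioc] at this

theorem coeff_GG (lam : Fin b → ℕ) (n L a m : ℕ) (ha : 1 ≤ a) (hm : m ≤ a * L) (f : ℤ[X]) :
    (f * GG lam n L a).coeff m = 0 := by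
  unfold GG
  rw [mul_sum, finsetSum_coeff]
  refine sum_eq_zero fun B hB => ?_
  rw [mem_filter, mem_powersetCard] at hB
  rw [coeff_mul_X_pow', if_neg]
  have h1 : B.card • (L + 1) ≤ ∑ x ∈ B, x := by
    refine card_nsmul_le_sum _ _ _ fun x hx => ?_
    have := mem_Ioc.1 (hB.1.1 hx)
    omega
  rw [hB.1.2, smul_eq_mul] at h1
  nlinarith

theorem inner_sum (S : Finset ℕ) (b c : ℕ) :
    ∑ A ∈ S.powerset.filter (fun A => c + A.card ≤ b), (X : ℤ[X]) ^ (∑ x ∈ A, x) =
      ∑ s ∈ range (b + 1 - c), ∑ A ∈ powersetCard s S, X ^ (∑ x ∈ A, x) := by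
  classical
  rw [← sum_fiberwise_of_maps_to (s := S.powerset.filter (fun A => c + A.card ≤ b))
    (t := range (b + 1 - c)) (g := card)]
  · refine sum_congr rfl fun s hs => ?_
    refine sum_congr ?_ fun _ _ => rfl
    ext A
    rw [mem_filter, mem_filter, mem_powerset, mem_powersetCard]
    rw [mem_range] at hs
    constructor
    · rintro ⟨⟨h1, h2⟩, h3⟩
      exact ⟨h1, h3⟩
    · rintro ⟨h1, h3⟩
      exact ⟨⟨h1, by omega⟩, h3⟩
  · intro A hA
    rw [mem_filter] at hA
    rw [mem_range]
    omega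

theorem good_iff (lam : Fin b → ℕ) (L : ℕ) (hL : ∀ i, L ≤ lam i) (A : Finset ℕ) :
    Good lam A ↔ Good lam (A.filter (fun x => L < x)) := by
  unfold Good
  refine forall_congr' fun i => ?_
  have : (A.filter (fun x => L < x)).filter (fun x => lam i < x) =
      A.filter (fun x => lam i < x) := by
    ext x
    simp only [mem_filter]
    have := hL i
    constructor
    · rintro ⟨⟨h1, h2⟩, h3⟩; exact ⟨h1, h3⟩
    · rintro ⟨h1, h3⟩; exact ⟨⟨h1, by omega⟩, h3⟩
  rw [this]

theorem decomp (lam : Fin b → ℕ) (n L : ℕ) (hL : ∀ i, L ≤ lam i) (hn : L ≤ n) :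
    FF lam n = ∑ a ∈ range (b + 1), GG lam n L a * ∑ s ∈ range (b + 1 - a), es L s := by
  classical
  -- step 1: pairs
  have h1 : FF lam n = ∑ B ∈ (Ioc L n).powerset.filter (Good lam),
      ∑ A ∈ (Icc 1 L).powerset.filter (fun A => B.card + A.card ≤ b),
        (X : ℤ[X]) ^ (∑ x ∈ B, x) * X ^ (∑ x ∈ A, x) := by
    unfold FF VV
    rw [sum_sigma']
    refine sum_nbij' (fun A => (⟨A.filter (fun x => L < x), A.filter (fun x => x ≤ L)⟩ :
        (_ : Finset ℕ) × Finset ℕ)) (fun p => p.1 ∪ p.2) ?_ ?_ ?_ ?_ ?_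
    · intro A hA
      rw [mem_filter, mem_powerset] at hA
      obtain ⟨h1, h2, h3⟩ := hA
      rw [mem_sigma, mem_filter, mem_filter, mem_powerset, mem_powerset]
      refine ⟨⟨?_, (good_iff lam L hL A).1 h3⟩, ?_, ?_⟩
      · intro x hx
        rw [mem_filter] at hx
        have := mem_Icc.1 (h1 hx.1)
        rw [mem_Ioc]; exact ⟨hx.2, this.2⟩
      · intro x hx
        rw [mem_filter] at hx
        have := mem_Icc.1 (h1 hx.1)
        rw [mem_Icc]; exact ⟨this.1, hx.2⟩
      · have := card_filter_add_card_filter_not (s := A) (fun x => L < x)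
        simp only [not_lt] at this
        simp only
        omega
    · rintro ⟨B, A⟩ hp
      rw [mem_sigma, mem_filter, mem_filter, mem_powerset, mem_powerset] at hp
      obtain ⟨⟨h1, h2⟩, h3, h4⟩ := hp
      simp only at h1 h2 h3 h4 ⊢
      rw [mem_filter, mem_powerset]
      refine ⟨?_, (card_union_le _ _).trans h4, ?_⟩
      · intro x hx
        rw [mem_union] at hx
        rw [mem_Icc]
        rcases hx with hx | hx
        · have := mem_Ioc.1 (h1 hx); omega
        · have := mem_Icc.1 (h3 hx); omega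
      · rw [good_iff lam L hL]
        have : (B ∪ A).filter (fun x => L < x) = B := by
          ext x
          rw [mem_filter, mem_union]
          constructor
          · rintro ⟨h5 | h5, h6⟩
            · exact h5
            · have := mem_Icc.1 (h3 h5); omega
          · intro h5
            exact ⟨Or.inl h5, (mem_Ioc.1 (h1 h5)).1⟩
        rw [this]; exact h2
    · intro A hA
      simp only
      ext x
      simp only [mem_union, mem_filter]
      constructor
      · rintro (h | h) <;> exact h.1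
      · intro h
        rcases lt_or_ge L x with h' | h'
        · exact Or.inl ⟨h, h'⟩
        · exact Or.inr ⟨h, h'⟩
    · rintro ⟨B, A⟩ hp
      rw [mem_sigma, mem_filter, mem_filter, mem_powerset, mem_powerset] at hp
      obtain ⟨⟨h1, h2⟩, h3, h4⟩ := hp
      simp only at h1 h2 h3 h4 ⊢
      have e1 : (B ∪ A).filter (fun x => L < x) = B := by
        ext x
        rw [mem_filter, mem_union]
        constructor
        · rintro ⟨h5 | h5, h6⟩
          · exact h5
          · have := mem_Icc.1 (h3 h5); omega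
        · intro h5
          exact ⟨Or.inl h5, (mem_Ioc.1 (h1 h5)).1⟩
      have e2 : (B ∪ A).filter (fun x => x ≤ L) = A := by
        ext x
        rw [mem_filter, mem_union]
        constructor
        · rintro ⟨h5 | h5, h6⟩
          · have := mem_Ioc.1 (h1 h5); omega
          · exact h5
        · intro h5
          exact ⟨Or.inr h5, (mem_Icc.1 (h3 h5)).2⟩
      rw [e1, e2]
    · intro A hA
      simp only
      rw [← pow_add]
      congr 1
      have := sum_filter_add_sum_filter_not A (fun x => L < x) (fun x => x)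
      simp only [not_lt] at this
      exact this.symm
  rw [h1]
  -- step 2: inner sums
  have h2 : ∀ B ∈ (Ioc L n).powerset.filter (Good lam),
      ∑ A ∈ (Icc 1 L).powerset.filter (fun A => B.card + A.card ≤ b),
        (X : ℤ[X]) ^ (∑ x ∈ B, x) * X ^ (∑ x ∈ A, x) =
      X ^ (∑ x ∈ B, x) * ∑ s ∈ range (b + 1 - B.card), es L s := by
    intro B _
    rw [← mul_sum, inner_sum]
    rfl
  rw [sum_congr rfl h2]
  -- step 3: remove the sets with more than b elements, group by cardinality
  have h3 : ∑ B ∈ (Ioc L n).powerset.filter (Good lam),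
      (X : ℤ[X]) ^ (∑ x ∈ B, x) * ∑ s ∈ range (b + 1 - B.card), es L s =
      ∑ B ∈ ((Ioc L n).powerset.filter (Good lam)).filter (fun B => B.card < b + 1),
      (X : ℤ[X]) ^ (∑ x ∈ B, x) * ∑ s ∈ range (b + 1 - B.card), es L s := by
    symm
    apply sum_filter_of_ne
    intro B _ hB
    by_contra hlt
    apply hB
    have : b + 1 - B.card = 0 := by omega
    rw [this, range_zero, sum_empty, mul_zero]
  rw [h3, ← sum_fiberwise_of_maps_to (t := range (b + 1)) (g := card)]
  · refine sum_congr rfl fun a ha => ?_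
    unfold GG
    rw [sum_mul]
    rw [mem_range] at ha
    have e : (((Ioc L n).powerset.filter (Good lam)).filter (fun B => B.card < b + 1)).filter
        (fun B => B.card = a) = (powersetCard a (Ioc L n)).filter (Good lam) := by
      ext B
      simp only [mem_filter, mem_powerset, mem_powersetCard]
      constructor
      · rintro ⟨⟨⟨h1, h2⟩, h3⟩, h4⟩; exact ⟨⟨h1, h4⟩, h2⟩
      · rintro ⟨⟨h1, h4⟩, h2⟩; exact ⟨⟨⟨h1, h2⟩, by omega⟩, h4⟩
    rw [e]
    refine sum_congr rfl fun B hB => ?_
    rw [mem_filter, mem_powersetCard] at hB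
    rw [hB.1.2]
  · intro B hB
    rw [mem_filter] at hB
    rw [mem_range]; exact hB.2

theorem GG_zero (lam : Fin b → ℕ) (n L : ℕ) : GG lam n L 0 = 1 := by
  unfold GG
  have : (powersetCard 0 (Ioc L n)).filter (Good lam) = {∅} := by
    rw [powersetCard_zero]
    ext B
    rw [mem_filter, mem_singleton]
    constructor
    · exact fun h => h.1
    · rintro rfl
      refine ⟨rfl, fun i => ?_⟩
      simp
  rw [this]
  simp

theorem decomp' (lam : Fin b → ℕ) (n L : ℕ) (hL : ∀ i, L ≤ lam i) (hn : L ≤ n) (j : ℕ) :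
    D ^ j * ((b.factorial : ℤ[X]) * FF lam n - ps L 1 ^ b) =
      D ^ j * W L b + (b.factorial : ℤ[X]) * ∑ s ∈ range b, D ^ j * es L s +
        (b.factorial : ℤ[X]) * ∑ a ∈ range b, ∑ s ∈ range (b - a),
          (D ^ j * es L s) * GG lam n L (a + 1) := by
  rw [decomp lam n L hL hn, sum_range_succ', GG_zero, one_mul, Nat.sub_zero, sum_range_succ _ b]
  unfold W
  have e1 : ∀ a ∈ range b, GG lam n L (a + 1) * ∑ s ∈ range (b + 1 - (a + 1)), es L s =
      ∑ s ∈ range (b - a), es L s * GG lam n L (a + 1) := by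
    intro a _
    rw [mul_comm, sum_mul, Nat.add_sub_add_right]
  rw [sum_congr rfl e1]
  have e2 : ∑ a ∈ range b, ∑ s ∈ range (b - a), (D ^ j * es L s) * GG lam n L (a + 1) =
      D ^ j * ∑ a ∈ range b, ∑ s ∈ range (b - a), es L s * GG lam n L (a + 1) := by
    rw [mul_sum]
    refine sum_congr rfl fun a _ => ?_
    rw [mul_sum]
    refine sum_congr rfl fun s _ => ?_
    ring
  rw [e2, ← mul_sum]
  ring

end Pool.Q141.UF
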