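import Pool.Agent.Q141.UF.Decomp

/-!
Error bounds for the first and second differences.
-/

open Polynomial Finset

namespace Pool.Q141.UF

theorem coeff_double_sum {b : ℕ} (T : ℕ → ℕ → ℤ[X]) (m : ℕ) (U : ℝ) (hU : 0 ≤ U)
    (h : ∀ a < b, ∀ s < b - a, |(((T a s).coeff m : ℤ) : ℝ)| ≤ U) :
    |(((∑ a ∈ range b, ∑ s ∈ range (b - a), T a s).coeff m : ℤ) : ℝ)| ≤ b * b * U := by
  rw [finsetSum_coeff]
  push_cast
  refine (abs_sum_le_sum_abs _ _).trans ?_
  have h1 : ∀ a ∈ range b, |(((∑ s ∈ range (b - a), T a s).coeff m : ℤ) : ℝ)| ≤ b * U := by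
    intro a ha
    rw [mem_range] at ha
    rw [finsetSum_coeff]
    push_cast
    refine (abs_sum_le_sum_abs _ _).trans ?_
    have h2 : ∀ s ∈ range (b - a), |(((T a s).coeff m : ℤ) : ℝ)| ≤ U := by
      intro s hs
      rw [mem_range] at hs
      exact h a ha s hs
    refine (sum_le_sum h2).trans ?_
    rw [sum_const, nsmul_eq_mul, card_range]
    apply mul_le_mul_of_nonneg_right _ hU
    exact_mod_cast Nat.sub_le b a
  refine (sum_le_sum h1).trans ?_
  rw [sum_const, nsmul_eq_mul, card_range]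
  apply le_of_eq
  ring

theorem pow_d {ε d L : ℝ} (hε : 0 ≤ ε) (hε1 : ε ≤ 1) (hd : 0 ≤ d) (hL : 0 ≤ L) (hdL : d ≤ ε * L)
    {a : ℕ} (ha : 1 ≤ a) : d ^ a ≤ ε * L ^ a := by
  calc d ^ a ≤ (ε * L) ^ a := pow_le_pow_left₀ hd hdL a
    _ = ε ^ a * L ^ a := mul_pow _ _ _
    _ ≤ ε ^ 1 * L ^ a := by
        apply mul_le_mul_of_nonneg_right _ (by positivity)
        exact pow_le_pow_of_le_one hε hε1 ha
    _ = ε * L ^ a := by rw [pow_one]

theorem errA (b : ℕ) (hb : 5 ≤ b) : ∃ C : ℝ, 0 ≤ C ∧ ∀ (lam : Fin b → ℕ) (n L : ℕ) (ε : ℝ),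
    1 ≤ L → (∀ i, L ≤ lam i) → L ≤ n → 0 ≤ ε → ε ≤ 1 → ((n - L : ℕ) : ℝ) ≤ ε * L →
    ∀ m, m ≤ b * L →
    |(((D * ((b.factorial : ℤ[X]) * FF lam n - ps L 1 ^ b)).coeff m : ℤ) : ℝ)| ≤
      C * (ε * (L : ℝ) ^ (b - 2) + (L : ℝ) ^ (b - 3)) := by
  obtain ⟨C₁, hC₁⟩ := sb_W1 b (by omega)
  have hC₁0 : 0 ≤ C₁ := by
    have := (hC₁ 1 le_rfl).nonneg
    simpa using this
  refine ⟨C₁ + b.factorial * (b * 2 ^ (b + 2)) + b.factorial * (b * b * 2 ^ (b + 2)),
    by positivity, fun lam n L ε hL hlam hn hε hε1 hd m hm => ?_⟩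
  have hLr : (1 : ℝ) ≤ L := by exact_mod_cast hL
  have hL0 : (0 : ℝ) ≤ L := by positivity
  have hd0 : (0 : ℝ) ≤ ((n - L : ℕ) : ℝ) := Nat.cast_nonneg _
  have key := decomp' lam n L hlam hn 1
  rw [pow_one] at key
  rw [key, coeff_add, coeff_add]
  push_cast
  set Q : ℝ := ε * (L : ℝ) ^ (b - 2) + (L : ℝ) ^ (b - 3) with hQ
  have hQ1 : (L : ℝ) ^ (b - 3) ≤ Q := by
    have : 0 ≤ ε * (L : ℝ) ^ (b - 2) := by positivity
    linarith
  have hQ2 : ε * (L : ℝ) ^ (b - 2) ≤ Q := by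
    have : (0 : ℝ) ≤ (L : ℝ) ^ (b - 3) := by positivity
    linarith
  have hQ0 : 0 ≤ Q := by positivity
  have h1 : |(((D * W L b).coeff m : ℤ) : ℝ)| ≤ C₁ * Q :=
    (hC₁ L hL m).trans (mul_le_mul_of_nonneg_left hQ1 hC₁0)
  have h2 : |((((b.factorial : ℤ[X]) * ∑ s ∈ range b, D * es L s).coeff m : ℤ) : ℝ)| ≤
      b.factorial * (b * 2 ^ (b + 2)) * Q := by
    have h3 : ∀ s ∈ range b, SB (D * es L s) (2 ^ (b + 2) * (L : ℝ) ^ (b - 3)) := by
      intro s hs
      rw [mem_range] at hs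
      have h4 := sb_D_es s 1 (by omega) L hL
      rw [pow_one] at h4
      refine h4.mono ?_
      apply mul_le_mul _ _ (by positivity) (by positivity)
      · exact pow_le_pow_right₀ (by norm_num) (by omega)
      · exact pow_L_mono hL (by omega)
    have h5 := ((SB.sum_const h3).natMul b.factorial) m
    refine h5.trans ?_
    rw [card_range]
    calc (b.factorial : ℝ) * (b * (2 ^ (b + 2) * (L : ℝ) ^ (b - 3)))
        = b.factorial * (b * 2 ^ (b + 2)) * (L : ℝ) ^ (b - 3) := by ring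
      _ ≤ b.factorial * (b * 2 ^ (b + 2)) * Q := by
        apply mul_le_mul_of_nonneg_left hQ1 (by positivity)
  have h3 : |((((b.factorial : ℤ[X]) * ∑ a ∈ range b, ∑ s ∈ range (b - a),
      (D * es L s) * GG lam n L (a + 1)).coeff m : ℤ) : ℝ)| ≤
      b.factorial * (b * b * 2 ^ (b + 2)) * Q := by
    rw [← C_eq_natCast, coeff_C_mul]
    push_cast
    rw [abs_mul, Nat.abs_cast, mul_assoc]
    apply mul_le_mul_of_nonneg_left _ (Nat.cast_nonneg _)
    rw [mul_assoc]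
    refine coeff_double_sum _ m _ (by positivity) ?_
    intro a ha s hs
    rcases Nat.lt_or_ge (a + 1) b with ha1 | ha1
    · -- a+1 ≤ b-1
      rcases Nat.lt_or_ge s 2 with hs2 | hs2
      · have h4 := ob_D_es_le_one (L := L) (t := s) (j := 1) (by omega) le_rfl
        rw [pow_one, pow_one] at h4
        have h5 := ((sb_GG lam n L (a + 1)).mul' h4) m
        refine h5.trans ?_
        have h6 : ((n - L : ℕ) : ℝ) ^ (a + 1 - 1) ≤ Q := by
          rw [Nat.add_sub_cancel]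
          rcases Nat.eq_zero_or_pos a with h0 | h0
          · subst h0
            rw [pow_zero]
            exact (one_le_pow_L hL _).trans hQ1
          · have h7 := pow_d hε hε1 hd0 hL0 hd h0
            refine h7.trans (le_trans ?_ hQ2)
            apply mul_le_mul_of_nonneg_left _ hε
            exact pow_L_mono hL (by omega)
        have h8 : (2 : ℝ) ≤ 2 ^ (b + 2) := by
          calc (2 : ℝ) = 2 ^ 1 := by norm_num
            _ ≤ 2 ^ (b + 2) := pow_le_pow_right₀ (by norm_num) (by omega)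
        calc ((n - L : ℕ) : ℝ) ^ (a + 1 - 1) * 2 ≤ Q * 2 ^ (b + 2) := by
              apply mul_le_mul h6 h8 (by norm_num) hQ0
          _ = 2 ^ (b + 2) * Q := by ring
      · have h4 := sb_D_es s 1 (by omega) L hL
        rw [pow_one] at h4
        have h5 := (h4.mul (ob_GG lam n L (a + 1))) m
        refine h5.trans ?_
        have h7 := pow_d hε hε1 hd0 hL0 hd (a := a + 1) (by omega)
        have h8 : (2 : ℝ) ^ (s + 2) ≤ 2 ^ (b + 2) := pow_le_pow_right₀ (by norm_num) (by omega)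
        have h9 : (L : ℝ) ^ (s - 1 - 1) * ((n - L : ℕ) : ℝ) ^ (a + 1) ≤ Q := by
          calc (L : ℝ) ^ (s - 1 - 1) * ((n - L : ℕ) : ℝ) ^ (a + 1)
              ≤ (L : ℝ) ^ (s - 1 - 1) * (ε * (L : ℝ) ^ (a + 1)) :=
                mul_le_mul_of_nonneg_left h7 (by positivity)
            _ = ε * (L : ℝ) ^ (s - 1 - 1 + (a + 1)) := by rw [pow_add]; ring
            _ ≤ ε * (L : ℝ) ^ (b - 2) := by
                apply mul_le_mul_of_nonneg_left _ hε
                exact pow_L_mono hL (by omega)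
            _ ≤ Q := hQ2
        calc (2 : ℝ) ^ (s + 2) * (L : ℝ) ^ (s - 1 - 1) * ((n - L : ℕ) : ℝ) ^ (a + 1)
            = 2 ^ (s + 2) * ((L : ℝ) ^ (s - 1 - 1) * ((n - L : ℕ) : ℝ) ^ (a + 1)) := by ring
          _ ≤ 2 ^ (b + 2) * Q := mul_le_mul h8 h9 (by positivity) (by positivity)
    · have h4 : m ≤ (a + 1) * L := by
        have : a + 1 = b := by omega
        rw [this]; exact hm
      rw [coeff_GG lam n L (a + 1) m (by omega) h4]
      simp only [Int.cast_zero, abs_zero]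
      positivity
  have e1 : ∑ s ∈ range b, D ^ 1 * es L s = ∑ s ∈ range b, D * es L s := by
    simp only [pow_one]
  calc _ ≤ C₁ * Q + b.factorial * (b * 2 ^ (b + 2)) * Q
        + b.factorial * (b * b * 2 ^ (b + 2)) * Q := by
        refine (abs_add_le _ _).trans (add_le_add ((abs_add_le _ _).trans (add_le_add h1 h2)) h3)
    _ = _ := by ring

theorem errB (b : ℕ) (hb : 5 ≤ b) : ∃ C : ℝ, 0 ≤ C ∧ ∀ (lam : Fin b → ℕ) (n L : ℕ) (ε : ℝ),
    1 ≤ L → (∀ i, L ≤ lam i) → L ≤ n → 0 ≤ ε → ε ≤ 1 → ((n - L : ℕ) : ℝ) ≤ ε * L →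
    ∀ m, m ≤ (b - 2) * L →
    |(((D ^ 2 * ((b.factorial : ℤ[X]) * FF lam n - ps L 1 ^ b)).coeff m : ℤ) : ℝ)| ≤
      C * (ε * (L : ℝ) ^ (b - 3) + (L : ℝ) ^ (b - 4)) := by
  obtain ⟨C₁, hC₁⟩ := sb_W2 b (by omega)
  have hC₁0 : 0 ≤ C₁ := by
    have := (hC₁ 1 le_rfl).nonneg
    simpa using this
  refine ⟨C₁ + b.factorial * (b * 2 ^ (b + 2)) + b.factorial * (b * b * 2 ^ (b + 2)),
    by positivity, fun lam n L ε hL hlam hn hε hε1 hd m hm => ?_⟩
  have hLr : (1 : ℝ) ≤ L := by exact_mod_cast hL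
  have hL0 : (0 : ℝ) ≤ L := by positivity
  have hd0 : (0 : ℝ) ≤ ((n - L : ℕ) : ℝ) := Nat.cast_nonneg _
  have key := decomp' lam n L hlam hn 2
  rw [key, coeff_add, coeff_add]
  push_cast
  set Q : ℝ := ε * (L : ℝ) ^ (b - 3) + (L : ℝ) ^ (b - 4) with hQ
  have hQ1 : (L : ℝ) ^ (b - 4) ≤ Q := by
    have : 0 ≤ ε * (L : ℝ) ^ (b - 3) := by positivity
    linarith
  have hQ2 : ε * (L : ℝ) ^ (b - 3) ≤ Q := by
    have : (0 : ℝ) ≤ (L : ℝ) ^ (b - 4) := by positivity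
    linarith
  have hQ0 : 0 ≤ Q := by positivity
  have h1 : |(((D ^ 2 * W L b).coeff m : ℤ) : ℝ)| ≤ C₁ * Q :=
    (hC₁ L hL m).trans (mul_le_mul_of_nonneg_left hQ1 hC₁0)
  have h2 : |((((b.factorial : ℤ[X]) * ∑ s ∈ range b, D ^ 2 * es L s).coeff m : ℤ) : ℝ)| ≤
      b.factorial * (b * 2 ^ (b + 2)) * Q := by
    have h3 : ∀ s ∈ range b, SB (D ^ 2 * es L s) (2 ^ (b + 2) * (L : ℝ) ^ (b - 4)) := by
      intro s hs
      rw [mem_range] at hs
      have h4 := sb_D_es s 2 (by omega) L hL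
      refine h4.mono ?_
      apply mul_le_mul _ _ (by positivity) (by positivity)
      · exact pow_le_pow_right₀ (by norm_num) (by omega)
      · exact pow_L_mono hL (by omega)
    have h5 := ((SB.sum_const h3).natMul b.factorial) m
    refine h5.trans ?_
    rw [card_range]
    calc (b.factorial : ℝ) * (b * (2 ^ (b + 2) * (L : ℝ) ^ (b - 4)))
        = b.factorial * (b * 2 ^ (b + 2)) * (L : ℝ) ^ (b - 4) := by ring
      _ ≤ b.factorial * (b * 2 ^ (b + 2)) * Q := by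
        apply mul_le_mul_of_nonneg_left hQ1 (by positivity)
  have h3 : |((((b.factorial : ℤ[X]) * ∑ a ∈ range b, ∑ s ∈ range (b - a),
      (D ^ 2 * es L s) * GG lam n L (a + 1)).coeff m : ℤ) : ℝ)| ≤
      b.factorial * (b * b * 2 ^ (b + 2)) * Q := by
    rw [← C_eq_natCast, coeff_C_mul]
    push_cast
    rw [abs_mul, Nat.abs_cast, mul_assoc]
    apply mul_le_mul_of_nonneg_left _ (Nat.cast_nonneg _)
    rw [mul_assoc]
    refine coeff_double_sum _ m _ (by positivity) ?_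
    intro a ha s hs
    rcases Nat.lt_or_ge (a + 1) (b - 2) with ha1 | ha1
    · -- a+1 ≤ b-3
      have h4 := sb_D_es s 2 (by omega) L hL
      have h5 := (h4.mul (ob_GG lam n L (a + 1))) m
      refine h5.trans ?_
      have h7 := pow_d hε hε1 hd0 hL0 hd (a := a + 1) (by omega)
      have h8 : (2 : ℝ) ^ (s + 2) ≤ 2 ^ (b + 2) := pow_le_pow_right₀ (by norm_num) (by omega)
      have h9 : (L : ℝ) ^ (s - 1 - 2) * ((n - L : ℕ) : ℝ) ^ (a + 1) ≤ Q := by
        calc (L : ℝ) ^ (s - 1 - 2) * ((n - L : ℕ) : ℝ) ^ (a + 1)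
            ≤ (L : ℝ) ^ (s - 1 - 2) * (ε * (L : ℝ) ^ (a + 1)) :=
              mul_le_mul_of_nonneg_left h7 (by positivity)
          _ = ε * (L : ℝ) ^ (s - 1 - 2 + (a + 1)) := by rw [pow_add]; ring
          _ ≤ ε * (L : ℝ) ^ (b - 3) := by
              apply mul_le_mul_of_nonneg_left _ hε
              exact pow_L_mono hL (by omega)
          _ ≤ Q := hQ2
      calc (2 : ℝ) ^ (s + 2) * (L : ℝ) ^ (s - 1 - 2) * ((n - L : ℕ) : ℝ) ^ (a + 1)
          = 2 ^ (s + 2) * ((L : ℝ) ^ (s - 1 - 2) * ((n - L : ℕ) : ℝ) ^ (a + 1)) := by ring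
        _ ≤ 2 ^ (b + 2) * Q := mul_le_mul h8 h9 (by positivity) (by positivity)
    · have h4 : m ≤ (a + 1) * L := hm.trans (Nat.mul_le_mul_right L ha1)
      rw [coeff_GG lam n L (a + 1) m (by omega) h4]
      simp only [Int.cast_zero, abs_zero]
      positivity
  calc _ ≤ C₁ * Q + b.factorial * (b * 2 ^ (b + 2)) * Q
        + b.factorial * (b * b * 2 ^ (b + 2)) * Q := by
        refine (abs_add_le _ _).trans (add_le_add ((abs_add_le _ _).trans (add_le_add h1 h2)) h3)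
    _ = _ := by ring

end Pool.Q141.UF
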