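import Pool.Agent.Q141.UF.Norms

/-!
First differences of the coefficients of `(q + ... + q^L)^k`.
-/

open Polynomial Finset

namespace Pool.Q141.UF

/-- `dd L k m` is the coefficient of `q^m` in `(1-q)(q+...+q^L)^k`. -/
noncomputable def dd (L : ℕ) : ℕ → ℤ → ℤ
  | 0, m => (if m = 0 then 1 else 0) - (if m = 1 then 1 else 0)
  | k + 1, m => ∑ t ∈ Icc (m - L) (m - 1), dd L k t

theorem dd_succ (L k : ℕ) (m : ℤ) : dd L (k + 1) m = ∑ t ∈ Icc (m - L) (m - 1), dd L k t := rfl

theorem dd_neg (L k : ℕ) : ∀ m : ℤ, m < 0 → dd L k m = 0 := by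
  induction k with
  | zero =>
    intro m hm
    simp only [dd]
    rw [if_neg (by omega), if_neg (by omega)]; simp
  | succ k ih =>
    intro m hm
    rw [dd_succ]
    refine sum_eq_zero fun t ht => ?_
    rw [mem_Icc] at ht
    exact ih t (by omega)

theorem coeff_main (L k : ℕ) : ∀ n : ℕ, (D * ps L 1 ^ k).coeff n = dd L k (n : ℤ) := by
  induction k with
  | zero =>
    intro n
    rw [pow_zero, mul_one]
    simp only [dd]
    unfold D
    rw [coeff_sub, coeff_one, coeff_X]
    congr 1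
    · by_cases h : n = 0
      · rw [if_pos h, if_pos (by omega)]
      · rw [if_neg h, if_neg (by omega)]
    · by_cases h : n = 1
      · rw [if_pos (by omega), if_pos (by omega)]
      · rw [if_neg (by omega), if_neg (by omega)]
  | succ k ih =>
    intro n
    rw [pow_succ, ← mul_assoc, dd_succ]
    have e : D * ps L 1 ^ k * ps L 1 = ∑ x ∈ Icc 1 L, D * ps L 1 ^ k * X ^ x := by
      conv_lhs => rw [ps]
      rw [mul_sum]
      refine sum_congr rfl fun x _ => ?_
      rw [one_mul]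
      rfl
    rw [e, finsetSum_coeff]
    refine sum_nbij' (fun x => (n : ℤ) - x) (fun t => ((n : ℤ) - t).toNat) ?_ ?_ ?_ ?_ ?_
    · intro x hx
      rw [mem_Icc] at hx ⊢
      omega
    · intro t ht
      rw [mem_Icc] at ht ⊢
      omega
    · intro x hx
      rw [mem_Icc] at hx
      omega
    · intro t ht
      rw [mem_Icc] at ht
      omega
    · intro x hx
      rw [coeff_mul_X_pow']
      split_ifs with h
      · rw [ih]
        congr 1
        omega
      · rw [dd_neg]
        omega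

theorem dd_anti (L k : ℕ) : ∀ m : ℤ, dd L k ((k : ℤ) * (L + 1) + 1 - m) = - dd L k m := by
  induction k with
  | zero =>
    intro m
    simp only [dd]
    by_cases h0 : m = 0
    · subst h0; simp
    · by_cases h1 : m = 1
      · subst h1; simp
      · rw [if_neg (by push_cast; omega), if_neg (by push_cast; omega), if_neg (by omega),
          if_neg (by omega)]
        simp
  | succ k ih =>
    intro m
    rw [dd_succ, dd_succ, ← sum_neg_distrib]
    refine sum_nbij' (fun t => (k : ℤ) * (L + 1) + 1 - t) (fun t => (k : ℤ) * (L + 1) + 1 - t)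
      ?_ ?_ ?_ ?_ ?_
    · intro t ht
      rw [mem_Icc] at ht ⊢
      push_cast at ht
      constructor <;> nlinarith [ht.1, ht.2]
    · intro t ht
      rw [mem_Icc] at ht ⊢
      push_cast
      constructor <;> nlinarith [ht.1, ht.2]
    · intro t ht
      ring
    · intro t ht
      ring
    · intro t ht
      rw [ih, neg_neg]

theorem sum_anti {f : ℤ → ℤ} {c : ℤ} (h : ∀ t, f (c - t) = - f t) (a : ℤ) :
    ∑ t ∈ Icc a (c - a), f t = 0 := by
  have h1 : ∑ t ∈ Icc a (c - a), f t = ∑ t ∈ Icc a (c - a), f (c - t) := by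
    refine sum_nbij' (fun t => c - t) (fun t => c - t) ?_ ?_ ?_ ?_ ?_
    · intro t ht
      rw [mem_Icc] at ht ⊢
      omega
    · intro t ht
      rw [mem_Icc] at ht ⊢
      omega
    · intro t ht
      ring
    · intro t ht
      ring
    · intro t ht
      congr 1
      ring
  have h2 : ∑ t ∈ Icc a (c - a), f (c - t) = - ∑ t ∈ Icc a (c - a), f t := by
    rw [← sum_neg_distrib]
    exact sum_congr rfl fun t _ => h t
  omega

/-- Removal of the antisymmetric part of a window. -/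
theorem dd_window (L k : ℕ) (m : ℤ) (hm : ((k : ℤ) * (L + 1) + 1) + L + 1 ≤ 2 * m) :
    dd L (k + 1) m =
      ∑ t ∈ Icc (max (m - L) ((k : ℤ) * (L + 1) + 1 - m + L + 1)) (m - 1), dd L k t := by
  rw [dd_succ]
  set c : ℤ := (k : ℤ) * (L + 1) + 1 with hc
  rcases le_or_gt (c - m + L + 1) (m - L) with h | h
  · rw [max_eq_left h]
  · rw [max_eq_right h.le]
    have hsplit : Icc (m - (L : ℤ)) (m - 1) = Icc (m - (L : ℤ)) (c - (m - L)) ∪
        Icc (c - m + L + 1) (m - 1) := by
      ext t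
      rw [mem_union, mem_Icc, mem_Icc, mem_Icc]
      omega
    have hdis : Disjoint (Icc (m - (L : ℤ)) (c - (m - L))) (Icc (c - m + L + 1) (m - 1)) := by
      rw [disjoint_left]
      intro t ht
      rw [mem_Icc] at ht ⊢
      omega
    rw [hsplit, sum_union hdis, sum_anti (f := dd L k) (c := c) (fun t => dd_anti L k t), zero_add]

theorem dd_one (L : ℕ) (hL : 1 ≤ L) (m : ℤ) :
    dd L 1 m = (if m = 1 then 1 else 0) - (if m = L + 1 then 1 else 0) := by
  rw [dd_succ]
  simp only [dd]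
  rw [sum_sub_distrib, sum_ite_eq', sum_ite_eq']
  simp only [mem_Icc]
  by_cases h1 : m = 1
  · rw [if_pos (by omega), if_neg (by omega), if_pos h1, if_neg (by omega)]
  · by_cases h2 : m = L + 1
    · rw [if_neg (by omega), if_pos (by omega), if_neg (by omega), if_pos h2]
    · rw [if_neg h1, if_neg h2]
      by_cases h3 : 2 ≤ m ∧ m ≤ L
      · rw [if_pos (by omega), if_pos (by omega)]; rfl
      · rw [if_neg (by omega), if_neg (by omega)]

theorem dd_two (L : ℕ) (hL : 1 ≤ L) (m : ℤ) :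
    dd L 2 m = (if 2 ≤ m ∧ m ≤ L + 1 then 1 else 0) -
      (if (L : ℤ) + 2 ≤ m ∧ m ≤ 2 * L + 1 then 1 else 0) := by
  rw [dd_succ]
  rw [sum_congr rfl fun t _ => dd_one L hL t]
  rw [sum_sub_distrib, sum_ite_eq', sum_ite_eq']
  simp only [mem_Icc]
  congr 1
  · by_cases h : 2 ≤ m ∧ m ≤ L + 1
    · rw [if_pos h, if_pos (by omega)]
    · rw [if_neg h, if_neg (by omega)]
  · by_cases h : (L : ℤ) + 2 ≤ m ∧ m ≤ 2 * L + 1
    · rw [if_pos h, if_pos (by omega)]
    · rw [if_neg h, if_neg (by omega)]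

theorem dd_nonpos (L k : ℕ) (hL : 1 ≤ L) (hk : 2 ≤ k) :
    ∀ m : ℤ, (k : ℤ) * (L + 1) + 1 < 2 * m → dd L k m ≤ 0 := by
  induction k, hk using Nat.le_induction with
  | base =>
    intro m hm
    rw [dd_two L hL]
    rw [if_neg (by push_cast at hm; omega)]
    split_ifs <;> simp
  | succ k hk ih =>
    intro m hm
    push_cast at hm
    rw [dd_window L k m (by nlinarith)]
    refine sum_nonpos fun t ht => ih t ?_
    rw [mem_Icc] at ht
    have h1 := (le_max_left _ _).trans ht.1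
    have h2 := (le_max_right _ _).trans ht.1
    omega

theorem dd_main (k : ℕ) (hk : 2 ≤ k) : ∀ δ : ℝ, 0 < δ → δ ≤ 1 → ∃ κ : ℝ, 0 < κ ∧ ∃ L0 : ℕ,
    ∀ L : ℕ, L0 ≤ L → 1 ≤ L → ∀ m : ℤ, (k : ℝ) * L / 2 + δ * L ≤ m → (m : ℝ) ≤ k * L - δ * L →
      ((dd L k m : ℤ) : ℝ) ≤ - (κ * (L : ℝ) ^ (k - 2)) := by
  induction k, hk using Nat.le_induction with
  | base =>
    intro δ hδ hδ1
    refine ⟨1, one_pos, ⌈2 / δ⌉₊, fun L hL hL1 m h1 h2 => ?_⟩
    have h3 : 2 ≤ δ * L := by
      have : 2 / δ ≤ L := (Nat.le_ceil _).trans (by exact_mod_cast hL)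
      rw [div_le_iff₀ hδ] at this
      linarith
    push_cast at h1 h2
    have h4 : (L : ℤ) + 2 ≤ m := by
      have : ((L : ℝ) + 2) ≤ m := by linarith
      exact_mod_cast this
    have h5 : m ≤ 2 * L + 1 := by
      have : (m : ℝ) ≤ 2 * L + 1 := by linarith
      exact_mod_cast this
    rw [dd_two L hL1, if_neg (by omega), if_pos ⟨h4, h5⟩]
    simp
  | succ k hk ih =>
    intro δ hδ hδ1
    obtain ⟨κ', hκ', L0', hmain⟩ := ih (δ / 8) (by positivity) (by linarith)
    refine ⟨κ' * (δ / 4), by positivity, max L0' ⌈8 * (k + 3) / δ⌉₊, fun L hL hL1 m h1 h2 => ?_⟩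
    have hLL := (le_max_left _ _).trans hL
    have h3 : 8 * ((k : ℝ) + 3) ≤ δ * L := by
      have : 8 * ((k : ℝ) + 3) / δ ≤ L :=
        (Nat.le_ceil _).trans (by exact_mod_cast (le_max_right _ _).trans hL)
      rw [div_le_iff₀ hδ] at this
      linarith
    push_cast at h1 h2
    have hL1r : (1 : ℝ) ≤ L := by exact_mod_cast hL1
    have hkr : (2 : ℝ) ≤ k := by exact_mod_cast hk
    have hkL : 2 * (L : ℝ) ≤ (k : ℝ) * L := by nlinarith
    have hδL : δ * L ≤ L := by nlinarith
    have hwin : ((k : ℤ) * (L + 1) + 1) + L + 1 ≤ 2 * m := by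
      have : ((k : ℝ) * (L + 1) + 1) + L + 1 ≤ 2 * m := by nlinarith
      exact_mod_cast this
    rw [dd_window L k m hwin]
    set r : ℤ := max (m - L) ((k : ℤ) * (L + 1) + 1 - m + L + 1) with hr
    set lo : ℤ := max r ⌈(k : ℝ) * L / 2 + δ / 8 * L⌉ with hlo
    set hi : ℤ := min (m - 1) ⌊(k : ℝ) * L - δ / 8 * L⌋ with hhi
    have hsub : Icc lo hi ⊆ Icc r (m - 1) := by
      apply Icc_subset_Icc
      · exact le_max_left _ _
      · exact min_le_left _ _
    have hterm : ∀ t ∈ Icc lo hi, ((dd L k t : ℤ) : ℝ) ≤ - (κ' * (L : ℝ) ^ (k - 2)) := by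
      intro t ht
      rw [mem_Icc] at ht
      apply hmain L hLL hL1 t
      · have : ((⌈(k : ℝ) * L / 2 + δ / 8 * L⌉ : ℤ) : ℝ) ≤ t := by
          exact_mod_cast (le_max_right _ _).trans ht.1
        exact (Int.le_ceil _).trans this
      · have : (t : ℝ) ≤ ((⌊(k : ℝ) * L - δ / 8 * L⌋ : ℤ) : ℝ) := by
          exact_mod_cast ht.2.trans (min_le_right _ _)
        exact this.trans (Int.floor_le _)
    have hneg : ∀ t ∈ Icc r (m - 1), ((dd L k t : ℤ) : ℝ) ≤ 0 := by
      intro t ht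
      rw [mem_Icc] at ht
      have h5 := (le_max_left _ _).trans ht.1
      have h6 := (le_max_right _ _).trans ht.1
      have := dd_nonpos L k hL1 hk t (by omega)
      exact_mod_cast this
    have hcard : δ / 4 * L ≤ ((Icc lo hi).card : ℝ) := by
      have h7 : ((hi - lo + 1 : ℤ) : ℝ) ≤ ((Icc lo hi).card : ℝ) := by
        rw [Int.card_Icc]
        have : (hi - lo + 1 : ℤ) ≤ ((hi + 1 - lo).toNat : ℤ) := by
          have := Int.self_le_toNat (hi + 1 - lo)
          omega
        exact_mod_cast this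
      refine le_trans ?_ h7
      push_cast
      have hhi' : (hi : ℝ) = m - 1 ∨ (k : ℝ) * L - δ / 8 * L - 1 ≤ hi := by
        rcases min_choice (m - 1) ⌊(k : ℝ) * L - δ / 8 * L⌋ with h | h
        · left; rw [hhi, h]; push_cast; ring
        · right; rw [hhi, h]
          have := Int.sub_one_lt_floor ((k : ℝ) * L - δ / 8 * L)
          linarith
      have hlo' : (lo : ℝ) = m - L ∨ (lo : ℝ) = (k : ℝ) * (L + 1) + 1 - m + L + 1 ∨
          (lo : ℝ) ≤ (k : ℝ) * L / 2 + δ / 8 * L + 1 := by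
        rcases max_choice r ⌈(k : ℝ) * L / 2 + δ / 8 * L⌉ with h | h
        · rcases max_choice (m - (L : ℤ)) ((k : ℤ) * (L + 1) + 1 - m + L + 1) with h' | h'
          · left; rw [hlo, h, hr, h']; push_cast; ring
          · right; left; rw [hlo, h, hr, h']; push_cast; ring
        · right; right; rw [hlo, h]
          have := Int.ceil_lt_add_one ((k : ℝ) * L / 2 + δ / 8 * L)
          linarith
      rcases hhi' with hb | hb <;> rcases hlo' with ha | ha | ha <;> nlinarith
    have hKL : (0 : ℝ) ≤ κ' * (L : ℝ) ^ (k - 2) := by positivity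
    have e1 : (L : ℝ) ^ (k + 1 - 2) = L * (L : ℝ) ^ (k - 2) := by
      rw [← pow_succ']; congr 1; omega
    rw [e1]
    push_cast
    calc ∑ t ∈ Icc r (m - 1), ((dd L k t : ℤ) : ℝ)
        ≤ ∑ t ∈ Icc lo hi, ((dd L k t : ℤ) : ℝ) := by
          rw [← sum_sdiff hsub]
          have : ∑ t ∈ Icc r (m - 1) \ Icc lo hi, ((dd L k t : ℤ) : ℝ) ≤ 0 :=
            sum_nonpos fun t ht => hneg t (mem_sdiff.1 ht).1
          linarith
      _ ≤ ∑ t ∈ Icc lo hi, (- (κ' * (L : ℝ) ^ (k - 2))) := sum_le_sum hterm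
      _ = - (((Icc lo hi).card : ℝ) * (κ' * (L : ℝ) ^ (k - 2))) := by
          rw [sum_const, nsmul_eq_mul]; ring
      _ ≤ - (δ / 4 * L * (κ' * (L : ℝ) ^ (k - 2))) := by
          apply neg_le_neg
          exact mul_le_mul_of_nonneg_right hcard hKL
      _ = - (κ' * (δ / 4) * (L * (L : ℝ) ^ (k - 2))) := by ring

end Pool.Q141.UF
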