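import Pool.Agent.Q141.UF.Err
import Pool.Agent.Q141.UF.MainTerm
import Pool.Agent.Q141.UF.Bij

/-!
Assembly: unimodality for near-rectangular partitions with at least five parts.
-/

open Polynomial Finset

namespace Pool.Q141.UF

theorem unimodal_of (N : ℕ → ℤ) (m1 m2 : ℕ)
    (h1 : ∀ m, m + 1 ≤ m1 → N m ≤ N (m + 1))
    (h2 : ∀ m, m2 ≤ m + 1 → N (m + 1) ≤ N m)
    (h3 : ∀ m, m1 ≤ m + 2 → m + 2 ≤ m2 → N m + N (m + 2) ≤ 2 * N (m + 1)) :
    ∃ t, (∀ m < t, N m ≤ N (m + 1)) ∧ ∀ m, t ≤ m → N (m + 1) ≤ N m := by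
  classical
  have hex : ∃ t, m1 ≤ t ∧ N (t + 1) ≤ N t := ⟨max m1 m2, le_max_left _ _,
    h2 _ ((le_max_right _ _).trans (Nat.le_succ _))⟩
  refine ⟨Nat.find hex, ?_, ?_⟩
  · intro m hm
    have := Nat.find_min hex hm
    rcases Nat.lt_or_ge m m1 with h | h
    · exact h1 m h
    · by_contra hlt
      exact this ⟨h, (not_le.1 hlt).le⟩
  · intro m hm
    induction m, hm using Nat.le_induction with
    | base => exact (Nat.find_spec hex).2
    | succ m hm ih =>
      have h4 := (Nat.find_spec hex).1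
      rcases Nat.lt_or_ge (m + 2) m2 with h | h
      · have := h3 m (by omega) h.le
        have e : m + 1 + 1 = m + 2 := rfl
        rw [e]
        omega
      · exact h2 (m + 1) h

theorem dd_diff (L k : ℕ) (hL : 1 ≤ L) (M : ℤ) :
    dd L (k + 1) M - dd L (k + 1) (M - 1) = dd L k (M - 1) - dd L k (M - 1 - L) := by
  rw [dd_succ, dd_succ]
  have e1 : Icc (M - (L : ℤ)) (M - 1) = insert (M - 1) (Icc (M - (L : ℤ)) (M - 2)) := by
    ext t
    rw [mem_insert, mem_Icc, mem_Icc]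
    omega
  have e2 : Icc (M - 1 - (L : ℤ)) (M - 1 - 1) =
      insert (M - 1 - (L : ℤ)) (Icc (M - (L : ℤ)) (M - 2)) := by
    ext t
    rw [mem_insert, mem_Icc, mem_Icc]
    omega
  rw [e1, e2, sum_insert, sum_insert]
  · ring
  · rw [mem_Icc]; omega
  · rw [mem_Icc]; omega

theorem coeff_D_succ (f : ℤ[X]) (m : ℕ) : (D * f).coeff (m + 1) = f.coeff (m + 1) - f.coeff m := by
  unfold D
  rw [sub_mul, one_mul, coeff_sub, coeff_X_mul]

theorem coeff_D2_succ (f : ℤ[X]) (m : ℕ) :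
    (D ^ 2 * f).coeff (m + 2) = f.coeff (m + 2) - 2 * f.coeff (m + 1) + f.coeff m := by
  rw [pow_two, mul_assoc, coeff_D_succ, coeff_D_succ, coeff_D_succ]
  ring

theorem coeff_main2 (L k : ℕ) (hL : 1 ≤ L) (m : ℕ) :
    (D ^ 2 * ps L 1 ^ (k + 1)).coeff (m + 2) =
      dd L k ((m : ℤ) + 1) - dd L k ((m : ℤ) + 1 - L) := by
  rw [pow_two, mul_assoc, coeff_D_succ, coeff_main, coeff_main]
  have := dd_diff L k hL ((m : ℤ) + 2)
  have e : (m : ℤ) + 2 - 1 = (m : ℤ) + 1 := by ring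
  rw [e] at this
  push_cast
  have e2 : (m : ℤ) + 1 + 1 = (m : ℤ) + 2 := by ring
  rw [e2]
  exact this

/-- abstract form with `n = lam 0`, `L = lam (b-1)`. -/
theorem main_aux (b : ℕ) (hb : 5 ≤ b) : ∃ ε : ℝ, 0 < ε ∧ ∃ N : ℕ, ∀ (lam : Fin b → ℕ),
    Antitone lam → ∀ (i0 l : Fin b), (i0 : ℕ) = 0 → (l : ℕ) + 1 = b → N ≤ lam i0 →
      (1 - ε) * (lam i0 : ℝ) < lam l →
    ∃ t, (∀ m < t, cnt lam m ≤ cnt lam (m + 1)) ∧ ∀ m, t ≤ m → cnt lam (m + 1) ≤ cnt lam m := by
  obtain ⟨CA, hCA0, hCA⟩ := errA b hb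
  obtain ⟨CB, hCB0, hCB⟩ := errB b hb
  obtain ⟨κ, hκ, L1, hmain1⟩ := dd_main b (by omega) (1 / 8) (by norm_num) (by norm_num)
  obtain ⟨κ', hκ', L2, hmain2⟩ := dd_main (b - 1) (by omega) (1 / 8) (by norm_num) (by norm_num)
  have hbr : (5 : ℝ) ≤ b := by exact_mod_cast hb
  set ε' : ℝ := min (1 / (2 * b)) (min (κ / (2 * (CA + 1))) (κ' / (2 * (CB + 1)))) with hε'
  have hε'0 : 0 < ε' := by
    rw [hε']
    apply lt_min (by positivity)
    apply lt_min <;> positivity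
  have hε'1 : ε' ≤ 1 / (2 * b) := min_le_left _ _
  have hε'1' : b * ε' ≤ 1 / 2 := by
    calc b * ε' ≤ b * (1 / (2 * b)) := mul_le_mul_of_nonneg_left hε'1 (by positivity)
      _ = 1 / 2 := by field_simp
  have hε'le1 : ε' ≤ 1 / 10 := by nlinarith
  have hε'2 : CA * ε' ≤ κ / 2 := by
    have h : ε' ≤ κ / (2 * (CA + 1)) := (min_le_right _ _).trans (min_le_left _ _)
    rw [le_div_iff₀ (by positivity)] at h
    nlinarith
  have hε'3 : CB * ε' ≤ κ' / 2 := by
    have h : ε' ≤ κ' / (2 * (CB + 1)) := (min_le_right _ _).trans (min_le_right _ _)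
    rw [le_div_iff₀ (by positivity)] at h
    nlinarith
  -- threshold
  set T : ℕ := max (max L1 L2) (max (max ⌈2 * CA / κ⌉₊ ⌈2 * CB / κ'⌉₊) (16 * (b + 2))) with hT
  refine ⟨ε' / 2, by positivity, 2 * T, ?_⟩
  intro lam hlam i0 l hi0 hl hN hcond
  set n := lam i0 with hn
  set L := lam l with hLdef
  have hLlam : ∀ i, L ≤ lam i := by
    intro i
    apply hlam
    rw [Fin.le_def]; omega
  have hlamn : ∀ i, lam i ≤ n := by
    intro i
    apply hlam
    rw [Fin.le_def]; omega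
  have hLn : L ≤ n := hLlam i0
  -- L is large
  have hnL : (n : ℝ) ≤ 2 * L := by
    have : (0 : ℝ) ≤ n := Nat.cast_nonneg _
    nlinarith
  have hTL : T ≤ L := by
    have h1 : ((2 * T : ℕ) : ℝ) ≤ n := by exact_mod_cast hN
    push_cast at h1
    have : (T : ℝ) ≤ L := by linarith
    exact_mod_cast this
  have hL1 : L1 ≤ L := ((le_max_left _ _).trans (le_max_left _ _)).trans hTL
  have hL2 : L2 ≤ L := ((le_max_right _ _).trans (le_max_left _ _)).trans hTL
  have hLA : 2 * CA ≤ κ * L := by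
    have h1 : ⌈2 * CA / κ⌉₊ ≤ L :=
      (((le_max_left _ _).trans (le_max_left _ _)).trans (le_max_right _ _)).trans hTL
    have h2 : 2 * CA / κ ≤ L := (Nat.le_ceil _).trans (by exact_mod_cast h1)
    rw [div_le_iff₀ hκ] at h2
    linarith
  have hLB : 2 * CB ≤ κ' * L := by
    have h1 : ⌈2 * CB / κ'⌉₊ ≤ L :=
      (((le_max_right _ _).trans (le_max_left _ _)).trans (le_max_right _ _)).trans hTL
    have h2 : 2 * CB / κ' ≤ L := (Nat.le_ceil _).trans (by exact_mod_cast h1)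
    rw [div_le_iff₀ hκ'] at h2
    linarith
  have hLb : 16 * (b + 2) ≤ L := ((le_max_right _ _).trans (le_max_right _ _)).trans hTL
  have hLbr : 16 * ((b : ℝ) + 2) ≤ L := by exact_mod_cast hLb
  have hLpos : 1 ≤ L := by omega
  have hLr : (1 : ℝ) ≤ L := by exact_mod_cast hLpos
  have hd : ((n - L : ℕ) : ℝ) ≤ ε' * L := by
    rw [Nat.cast_sub hLn]
    have : ε' / 2 * n ≤ ε' / 2 * (2 * L) := mul_le_mul_of_nonneg_left hnL (by positivity)
    nlinarith
  have hFA := hCA lam n L ε' hLpos hLlam hLn hε'0.le (by linarith) hd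
  have hFB := hCB lam n L ε' hLpos hLlam hLn hε'0.le (by linarith) hd
  have hfac : (0 : ℝ) < b.factorial := by exact_mod_cast b.factorial_pos
  -- error simplification
  have hErrA : CA * (ε' * (L : ℝ) ^ (b - 2) + (L : ℝ) ^ (b - 3)) ≤ κ * (L : ℝ) ^ (b - 2) := by
    have e : (L : ℝ) ^ (b - 2) = L * (L : ℝ) ^ (b - 3) := by
      rw [← pow_succ']; congr 1; omega
    have hp : (0 : ℝ) ≤ (L : ℝ) ^ (b - 3) := by positivity
    have hp2 : (0 : ℝ) ≤ (L : ℝ) ^ (b - 2) := by positivity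
    have h1 : CA * ε' * (L : ℝ) ^ (b - 2) ≤ κ / 2 * (L : ℝ) ^ (b - 2) :=
      mul_le_mul_of_nonneg_right hε'2 hp2
    have h2 : CA * (L : ℝ) ^ (b - 3) ≤ κ / 2 * (L : ℝ) ^ (b - 2) := by
      rw [e]
      have : CA * (L : ℝ) ^ (b - 3) ≤ (κ * L / 2) * (L : ℝ) ^ (b - 3) :=
        mul_le_mul_of_nonneg_right (by linarith) hp
      linarith
    linarith
  have hErrB : CB * (ε' * (L : ℝ) ^ (b - 3) + (L : ℝ) ^ (b - 4)) ≤ κ' * (L : ℝ) ^ (b - 3) := by
    have e : (L : ℝ) ^ (b - 3) = L * (L : ℝ) ^ (b - 4) := by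
      rw [← pow_succ']; congr 1; omega
    have hp : (0 : ℝ) ≤ (L : ℝ) ^ (b - 4) := by positivity
    have hp2 : (0 : ℝ) ≤ (L : ℝ) ^ (b - 3) := by positivity
    have h1 : CB * ε' * (L : ℝ) ^ (b - 3) ≤ κ' / 2 * (L : ℝ) ^ (b - 3) :=
      mul_le_mul_of_nonneg_right hε'3 hp2
    have h2 : CB * (L : ℝ) ^ (b - 4) ≤ κ' / 2 * (L : ℝ) ^ (b - 3) := by
      rw [e]
      have : CB * (L : ℝ) ^ (b - 4) ≤ (κ' * L / 2) * (L : ℝ) ^ (b - 4) :=
        mul_le_mul_of_nonneg_right (by linarith) hp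
      linarith
    linarith
  have hcc : ∀ m, (cnt lam m : ℤ) = (FF lam n).coeff m := cnt_coeff lam n hlamn
  -- first differences
  have hdiff1 : ∀ m : ℕ, m + 1 ≤ b * L →
      |(b.factorial : ℝ) * ((cnt lam (m + 1) : ℝ) - cnt lam m) - (dd L b ((m + 1 : ℕ) : ℤ) : ℝ)| ≤
        κ * (L : ℝ) ^ (b - 2) := by
    intro m hm
    have h1 := (hFA (m + 1) hm).trans hErrA
    have e1 : (D * ((b.factorial : ℤ[X]) * FF lam n - ps L 1 ^ b)).coeff (m + 1) =
        (b.factorial : ℤ) * ((cnt lam (m + 1) : ℤ) - cnt lam m) - dd L b ((m + 1 : ℕ) : ℤ) := by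
      rw [mul_sub, coeff_sub, coeff_main, mul_left_comm, ← C_eq_natCast, coeff_C_mul, coeff_D_succ,
        hcc, hcc]
    rw [e1] at h1
    push_cast at h1 ⊢
    exact h1
  have hdiff2 : ∀ m : ℕ, m + 2 ≤ (b - 2) * L →
      |(b.factorial : ℝ) * ((cnt lam (m + 2) : ℝ) - 2 * cnt lam (m + 1) + cnt lam m) -
        ((dd L (b - 1) ((m : ℤ) + 1) : ℝ) - (dd L (b - 1) ((m : ℤ) + 1 - L) : ℝ))| ≤
        κ' * (L : ℝ) ^ (b - 3) := by
    intro m hm
    have h1 := (hFB (m + 2) hm).trans hErrB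
    have e0 : b = b - 1 + 1 := by omega
    have e1 : (D ^ 2 * ((b.factorial : ℤ[X]) * FF lam n - ps L 1 ^ b)).coeff (m + 2) =
        (b.factorial : ℤ) * ((cnt lam (m + 2) : ℤ) - 2 * cnt lam (m + 1) + cnt lam m) -
          (dd L (b - 1) ((m : ℤ) + 1) - dd L (b - 1) ((m : ℤ) + 1 - L)) := by
      rw [mul_sub, coeff_sub]
      have e2 : (D ^ 2 * ps L 1 ^ b).coeff (m + 2) =
          dd L (b - 1) ((m : ℤ) + 1) - dd L (b - 1) ((m : ℤ) + 1 - L) := by
        conv_lhs => rw [e0]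
        exact coeff_main2 L (b - 1) hLpos m
      rw [e2, mul_left_comm, ← C_eq_natCast, coeff_C_mul, coeff_D2_succ, hcc, hcc, hcc]
    rw [e1] at h1
    push_cast at h1 ⊢
    exact h1
  set m1 : ℕ := ⌊(b : ℝ) * L / 2 - L / 8⌋₊ with hm1
  set m2 : ℕ := ⌈(b : ℝ) * L / 2 + L / 8⌉₊ with hm2
  have hbL : 5 * (L : ℝ) ≤ (b : ℝ) * L := mul_le_mul_of_nonneg_right hbr (by positivity)
  have hm1r : (m1 : ℝ) ≤ (b : ℝ) * L / 2 - L / 8 := by
    apply Nat.floor_le
    linarith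
  have hm1r' : (b : ℝ) * L / 2 - L / 8 - 1 ≤ m1 := by
    have := Nat.lt_floor_add_one ((b : ℝ) * L / 2 - L / 8)
    rw [← hm1] at this
    linarith
  have hm2r : (b : ℝ) * L / 2 + L / 8 ≤ m2 := Nat.le_ceil _
  have hm2r' : (m2 : ℝ) ≤ (b : ℝ) * L / 2 + L / 8 + 1 := by
    have := Nat.ceil_lt_add_one (a := (b : ℝ) * L / 2 + L / 8) (by positivity)
    rw [← hm2] at this
    linarith
  have hb1 : ((b - 1 : ℕ) : ℝ) = (b : ℝ) - 1 := by
    rw [Nat.cast_sub (by omega)]; simp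
  have huni := unimodal_of (fun m => (cnt lam m : ℤ)) m1 m2 ?_ ?_ ?_
  · obtain ⟨t, ht1, ht2⟩ := huni
    refine ⟨t, fun m hm => ?_, fun m hm => ?_⟩
    · exact_mod_cast ht1 m hm
    · exact_mod_cast ht2 m hm
  · -- increasing part
    intro m hm
    rcases Nat.lt_or_ge m n with h | h
    · exact_mod_cast cnt_left lam i0 hi0 m h
    · have hmr : ((m : ℝ) + 1) ≤ (b : ℝ) * L / 2 - L / 8 := by
        have : ((m + 1 : ℕ) : ℝ) ≤ m1 := by exact_mod_cast hm
        push_cast at this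
        linarith
      have hmn : (L : ℝ) ≤ m := by exact_mod_cast hLn.trans h
      have hbLn : m + 1 ≤ b * L := by
        have : ((m + 1 : ℕ) : ℝ) ≤ ((b * L : ℕ) : ℝ) := by
          push_cast
          linarith
        exact_mod_cast this
      have h1 := hdiff1 m hbLn
      -- dd L b (m+1) ≥ κ L^(b-2)
      have h2 : κ * (L : ℝ) ^ (b - 2) ≤ (dd L b ((m + 1 : ℕ) : ℤ) : ℝ) := by
        have h3 := hmain1 L hL1 hLpos ((b : ℤ) * (L + 1) + 1 - ((m + 1 : ℕ) : ℤ)) ?_ ?_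
        · rw [dd_anti] at h3
          push_cast at h3 ⊢
          linarith
        · push_cast
          linarith
        · push_cast
          linarith
      have h4 := (abs_le.1 h1).1
      have h5 : 0 ≤ (b.factorial : ℝ) * ((cnt lam (m + 1) : ℝ) - cnt lam m) := by linarith
      have h6 : 0 ≤ (cnt lam (m + 1) : ℝ) - cnt lam m := by
        by_contra hlt
        have := mul_neg_of_pos_of_neg hfac (not_le.1 hlt)
        linarith
      have h7 : (cnt lam m : ℝ) ≤ cnt lam (m + 1) := by linarith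
      exact_mod_cast h7
  · -- decreasing part
    intro m hm
    rcases Nat.lt_or_ge (∑ i, lam i - lam l) (m + 1) with h | h
    · exact_mod_cast cnt_right lam l hl m h
    · have hS : ∑ i, lam i - lam l ≤ (b - 1) * n := by
        have e2 := sum_sdiff (subset_univ ({l} : Finset (Fin b))) (f := lam)
        rw [sum_singleton] at e2
        have e3 : ∑ x ∈ univ \ {l}, lam x ≤ (univ \ {l} : Finset (Fin b)).card • n :=
          sum_le_card_nsmul _ _ _ fun i _ => hlamn i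
        have e4 : (univ \ {l} : Finset (Fin b)).card = b - 1 := by
          rw [card_sdiff_of_subset (subset_univ _), card_univ, Fintype.card_fin, card_singleton]
        rw [e4, smul_eq_mul] at e3
        omega
      have hmS : ((m : ℝ) + 1) ≤ ((b : ℝ) - 1) * n := by
        have : ((m + 1 : ℕ) : ℝ) ≤ (((b - 1) * n : ℕ) : ℝ) := by exact_mod_cast h.trans hS
        rw [Nat.cast_mul, hb1] at this
        push_cast at this
        linarith
      have hn2 : (n : ℝ) ≤ (1 + ε') * L := by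
        rw [Nat.cast_sub hLn] at hd
        linarith
      have hmS2 : ((m : ℝ) + 1) ≤ (b : ℝ) * L - 1 / 8 * L := by
        have h8 : ((b : ℝ) - 1) * n ≤ ((b : ℝ) - 1) * ((1 + ε') * L) :=
          mul_le_mul_of_nonneg_left hn2 (by linarith)
        have h9 : (b * ε') * L ≤ 1 / 2 * L := mul_le_mul_of_nonneg_right hε'1' (by positivity)
        have h10 : 0 ≤ ε' * L := by positivity
        nlinarith
      have hmr : (b : ℝ) * L / 2 + L / 8 ≤ (m : ℝ) + 1 := by
        have : (m2 : ℝ) ≤ ((m + 1 : ℕ) : ℝ) := by exact_mod_cast hm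
        push_cast at this
        linarith
      have hbLn : m + 1 ≤ b * L := by
        have : ((m + 1 : ℕ) : ℝ) ≤ ((b * L : ℕ) : ℝ) := by
          push_cast
          linarith
        exact_mod_cast this
      have h1 := hdiff1 m hbLn
      have h2 : (dd L b ((m + 1 : ℕ) : ℤ) : ℝ) ≤ - (κ * (L : ℝ) ^ (b - 2)) := by
        apply hmain1 L hL1 hLpos
        · push_cast; linarith
        · push_cast; linarith
      have h4 := (abs_le.1 h1).2
      have h5 : (b.factorial : ℝ) * ((cnt lam (m + 1) : ℝ) - cnt lam m) ≤ 0 := by linarith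
      have h6 : (cnt lam (m + 1) : ℝ) - cnt lam m ≤ 0 := by
        by_contra hlt
        have := mul_pos hfac (not_le.1 hlt)
        linarith
      have h7 : (cnt lam (m + 1) : ℝ) ≤ cnt lam m := by linarith
      exact_mod_cast h7
  · -- concave part
    intro m hma hmb
    have hmar : (b : ℝ) * L / 2 - L / 4 ≤ (m : ℝ) + 2 := by
      have : (m1 : ℝ) ≤ ((m + 2 : ℕ) : ℝ) := by exact_mod_cast hma
      push_cast at this
      linarith
    have hmbr : (m : ℝ) + 2 ≤ (b : ℝ) * L / 2 + L / 4 := by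
      have : ((m + 2 : ℕ) : ℝ) ≤ m2 := by exact_mod_cast hmb
      push_cast at this
      linarith
    have hb2 : ((b - 2 : ℕ) : ℝ) = (b : ℝ) - 2 := by
      rw [Nat.cast_sub (by omega)]; simp
    have hbLn : m + 2 ≤ (b - 2) * L := by
      have : ((m + 2 : ℕ) : ℝ) ≤ (((b - 2) * L : ℕ) : ℝ) := by
        rw [Nat.cast_mul, hb2]
        push_cast
        linarith
      exact_mod_cast this
    have h1 := hdiff2 m hbLn
    have hbb : b - 1 - 2 = b - 3 := by omega
    have h2 : (dd L (b - 1) ((m : ℤ) + 1) : ℝ) ≤ - (κ' * (L : ℝ) ^ (b - 3)) := by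
      rw [← hbb]
      apply hmain2 L hL2 hLpos
      · rw [hb1]; push_cast; linarith
      · rw [hb1]; push_cast; linarith
    have h3 : κ' * (L : ℝ) ^ (b - 3) ≤ (dd L (b - 1) ((m : ℤ) + 1 - L) : ℝ) := by
      have h4 := hmain2 L hL2 hLpos (((b - 1 : ℕ) : ℤ) * (L + 1) + 1 - ((m : ℤ) + 1 - L)) ?_ ?_
      · rw [dd_anti, hbb] at h4
        push_cast at h4 ⊢
        linarith
      · rw [hb1]
        push_cast
        rw [hb1]
        linarith
      · rw [hb1]
        push_cast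
        rw [hb1]
        linarith
    have h4 := (abs_le.1 h1).2
    have hpos3 : 0 ≤ κ' * (L : ℝ) ^ (b - 3) := by positivity
    have h5 : (b.factorial : ℝ) *
        ((cnt lam (m + 2) : ℝ) - 2 * cnt lam (m + 1) + cnt lam m) ≤ 0 := by linarith
    have h6 : (cnt lam (m + 2) : ℝ) - 2 * cnt lam (m + 1) + cnt lam m ≤ 0 := by
      by_contra hlt
      have := mul_pos hfac (not_le.1 hlt)
      linarith
    have h7 : (cnt lam m : ℝ) + cnt lam (m + 2) ≤ 2 * cnt lam (m + 1) := by linarith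
    exact_mod_cast h7

end Pool.Q141.UF
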