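import Mathlib

/-!
Sup norms and multiplier norms of integer polynomials (through predicates), and the
elementary symmetric polynomials of `q, q^2, ..., q^L`.
-/

open Polynomial Finset

namespace Pool.Q141.UF

/-- All coefficients are bounded by `B`. -/
def SB (f : ℤ[X]) (B : ℝ) : Prop := ∀ m, |((f.coeff m : ℤ) : ℝ)| ≤ B

/-- Multiplication by `g` enlarges coefficient bounds at most by the factor `B`. -/
def OB (g : ℤ[X]) (B : ℝ) : Prop := ∀ f A, 0 ≤ A → SB f A → SB (f * g) (A * B)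

theorem SB.nonneg {f : ℤ[X]} {B : ℝ} (h : SB f B) : 0 ≤ B := le_trans (abs_nonneg _) (h 0)

theorem SB.mono {f : ℤ[X]} {A B : ℝ} (h : SB f A) (hab : A ≤ B) : SB f B :=
  fun m => (h m).trans hab

theorem SB.mul {f g : ℤ[X]} {A B : ℝ} (h : SB f A) (hg : OB g B) : SB (f * g) (A * B) :=
  hg f A h.nonneg h

theorem SB.mul' {f g : ℤ[X]} {A B : ℝ} (h : SB f A) (hg : OB g B) : SB (g * f) (A * B) := by
  rw [mul_comm]; exact h.mul hg

theorem SB.add {f g : ℤ[X]} {A B : ℝ} (h : SB f A) (hg : SB g B) : SB (f + g) (A + B) := by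
  intro m
  rw [coeff_add, Int.cast_add]
  exact (abs_add_le _ _).trans (add_le_add (h m) (hg m))

theorem SB.neg {f : ℤ[X]} {A : ℝ} (h : SB f A) : SB (-f) A := by
  intro m
  rw [coeff_neg, Int.cast_neg, abs_neg]
  exact h m

theorem SB.sub {f g : ℤ[X]} {A B : ℝ} (h : SB f A) (hg : SB g B) : SB (f - g) (A + B) := by
  rw [sub_eq_add_neg]; exact h.add hg.neg

theorem SB.zero : SB 0 0 := by intro m; simp

theorem SB.sum {ι : Type*} {s : Finset ι} {f : ι → ℤ[X]} {B : ι → ℝ}
    (h : ∀ i ∈ s, SB (f i) (B i)) : SB (∑ i ∈ s, f i) (∑ i ∈ s, B i) := by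
  classical
  induction s using Finset.induction_on with
  | empty => simpa using SB.zero
  | insert a s ha ih =>
    rw [sum_insert ha, sum_insert ha]
    exact (h a (mem_insert_self _ _)).add (ih fun i hi => h i (mem_insert_of_mem hi))

theorem SB.sum_const {ι : Type*} {s : Finset ι} {f : ι → ℤ[X]} {B : ℝ}
    (h : ∀ i ∈ s, SB (f i) B) : SB (∑ i ∈ s, f i) (s.card * B) := by
  have := SB.sum h
  rwa [Finset.sum_const, nsmul_eq_mul] at this

theorem SB.natMul {f : ℤ[X]} {A : ℝ} (n : ℕ) (h : SB f A) : SB ((n : ℤ[X]) * f) (n * A) := by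
  intro m
  rw [← C_eq_natCast, coeff_C_mul]
  push_cast
  rw [abs_mul, Nat.abs_cast]
  exact mul_le_mul_of_nonneg_left (h m) (Nat.cast_nonneg _)

theorem SB.of_natMul {f : ℤ[X]} {A : ℝ} (n : ℕ) (hn : 0 < n) (h : SB ((n : ℤ[X]) * f) (n * A)) :
    SB f A := by
  intro m
  have := h m
  rw [← C_eq_natCast, coeff_C_mul] at this
  push_cast at this
  rw [abs_mul, Nat.abs_cast] at this
  exact le_of_mul_le_mul_left this (by exact_mod_cast hn)

theorem OB.mul {f g : ℤ[X]} {A B : ℝ} (hA : 0 ≤ A) (h : OB f A) (hg : OB g B) :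
    OB (f * g) (A * B) := by
  intro u U hU hu
  have h1 := h u U hU hu
  have h2 := hg _ _ (mul_nonneg hU hA) h1
  rw [← mul_assoc, ← mul_assoc]
  exact h2

theorem OB.mono {f : ℤ[X]} {A B : ℝ} (h : OB f A) (hab : A ≤ B) : OB f B :=
  fun u U hU hu => (h u U hU hu).mono (mul_le_mul_of_nonneg_left hab hU)

theorem OB.add {f g : ℤ[X]} {A B : ℝ} (h : OB f A) (hg : OB g B) : OB (f + g) (A + B) := by
  intro u U hU hu
  rw [mul_add, mul_add]
  exact (h u U hU hu).add (hg u U hU hu)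

theorem OB.sub {f g : ℤ[X]} {A B : ℝ} (h : OB f A) (hg : OB g B) : OB (f - g) (A + B) := by
  intro u U hU hu
  rw [mul_sub, mul_add]
  exact (h u U hU hu).sub (hg u U hU hu)

theorem OB.one : OB 1 1 := by
  intro u U hU hu
  rwa [mul_one, mul_one]

theorem OB.zero : OB 0 0 := by
  intro u U hU hu
  rw [mul_zero, mul_zero]; exact SB.zero

theorem OB.X_pow (k : ℕ) : OB (X ^ k) 1 := by
  intro u U hU hu m
  rw [coeff_mul_X_pow', mul_one]
  split_ifs
  · exact hu _
  · simpa using hU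

theorem OB.sum {ι : Type*} {s : Finset ι} {f : ι → ℤ[X]} {B : ι → ℝ}
    (h : ∀ i ∈ s, OB (f i) (B i)) : OB (∑ i ∈ s, f i) (∑ i ∈ s, B i) := by
  classical
  induction s using Finset.induction_on with
  | empty => simpa using OB.zero
  | insert a s ha ih =>
    rw [sum_insert ha, sum_insert ha]
    exact (h a (mem_insert_self _ _)).add (ih fun i hi => h i (mem_insert_of_mem hi))

theorem OB.card {ι : Type*} {s : Finset ι} {f : ι → ℕ} :
    OB (∑ i ∈ s, X ^ (f i)) s.card := by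
  have := OB.sum (s := s) (f := fun i => (X : ℤ[X]) ^ (f i)) (B := fun _ => 1)
    (fun i _ => OB.X_pow _)
  simpa using this

theorem SB.one : SB 1 1 := by
  intro m
  rw [coeff_one]
  split_ifs <;> simp

theorem OB.toSB {g : ℤ[X]} {B : ℝ} (h : OB g B) : SB g B := by
  have := h 1 1 zero_le_one SB.one
  rwa [one_mul, one_mul] at this

/-- `1 - q`. -/
noncomputable def D : ℤ[X] := 1 - X

theorem ob_D : OB D 2 := by
  have h := OB.one.sub (OB.X_pow 1)
  rw [pow_one] at h
  exact h.mono (by norm_num)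

theorem ob_D_pow (j : ℕ) : OB (D ^ j) (2 ^ j) := by
  induction j with
  | zero => simpa using OB.one
  | succ j ih =>
    rw [pow_succ, pow_succ]
    exact OB.mul (by positivity) ih ob_D

/-- The power sums `∑_{x=1}^L q^(i x)`. -/
noncomputable def ps (L i : ℕ) : ℤ[X] := ∑ x ∈ Icc 1 L, X ^ (i * x)

/-- The elementary symmetric polynomials of `q, ..., q^L`, as sums over sets. -/
noncomputable def es (L s : ℕ) : ℤ[X] := ∑ A ∈ powersetCard s (Icc 1 L), X ^ (∑ x ∈ A, x)

theorem ob_ps (L i : ℕ) : OB (ps L i) L := by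
  have := OB.card (s := Icc 1 L) (f := fun x => i * x)
  simpa [ps] using this

theorem coeff_sum_X_pow {ι : Type*} [DecidableEq ι] (s : Finset ι) (f : ι → ℕ) (m : ℕ) :
    (∑ i ∈ s, (X : ℤ[X]) ^ (f i)).coeff m = ((s.filter (fun i => f i = m)).card : ℤ) := by
  rw [finsetSum_coeff, card_filter]
  push_cast
  refine sum_congr rfl fun i _ => ?_
  rw [coeff_X_pow]
  by_cases h : m = f i
  · rw [if_pos h, if_pos h.symm]
  · rw [if_neg h, if_neg (fun h' => h h'.symm)]

theorem sb_ps {L i : ℕ} (hi : 0 < i) : SB (ps L i) 1 := by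
  intro m
  unfold ps
  rw [coeff_sum_X_pow]
  have : ((Icc 1 L).filter (fun x => i * x = m)).card ≤ 1 := by
    rw [card_le_one]
    intro a ha b hb
    rw [mem_filter] at ha hb
    exact Nat.eq_of_mul_eq_mul_left hi (ha.2.trans hb.2.symm)
  push_cast
  rw [Nat.abs_cast]
  exact_mod_cast this

theorem D_mul_ps_one (L : ℕ) : D * ps L 1 = X - X ^ (L + 1) := by
  unfold D ps
  induction L with
  | zero => simp
  | succ L ih =>
    rw [sum_Icc_succ_top (by omega), mul_add, ih]
    ring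

theorem ob_D_mul_ps_one (L : ℕ) : OB (D * ps L 1) 2 := by
  rw [D_mul_ps_one]
  have h := (OB.X_pow 1).sub (OB.X_pow (L + 1))
  rw [pow_one] at h
  exact h.mono (by norm_num)

/-- Newton's identity. -/
theorem newton (L s : ℕ) : (s : ℤ[X]) * es L s =
    ∑ t ∈ range s, (-1) ^ (s + 1 + t) * (es L t * ps L (s - t)) := by
  classical
  have key := congrArg (MvPolynomial.aeval (R := ℤ) (fun x : {x // x ∈ Icc 1 L} => (X : ℤ[X]) ^ (x : ℕ)))
    (MvPolynomial.mul_esymm_eq_sum {x // x ∈ Icc 1 L} ℤ s)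
  have hE : ∀ k, MvPolynomial.aeval (R := ℤ) (fun x : {x // x ∈ Icc 1 L} => (X : ℤ[X]) ^ (x : ℕ))
      (MvPolynomial.esymm {x // x ∈ Icc 1 L} ℤ k) = es L k := by
    intro k
    rw [MvPolynomial.aeval_esymm_eq_multiset_esymm]
    have h1 : Multiset.map (fun x : {x // x ∈ Icc 1 L} => (X : ℤ[X]) ^ (x : ℕ))
        (Finset.univ : Finset {x // x ∈ Icc 1 L}).val
        = Multiset.map (fun x => (X : ℤ[X]) ^ x) (Icc 1 L).val :=
      Multiset.attach_map_val' (Icc 1 L).val (fun x => (X : ℤ[X]) ^ x)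
    rw [h1, esymm_map_val]
    unfold es
    refine sum_congr rfl fun A _ => ?_
    rw [← prod_pow_eq_pow_sum]
  have hP : ∀ k, MvPolynomial.aeval (R := ℤ) (fun x : {x // x ∈ Icc 1 L} => (X : ℤ[X]) ^ (x : ℕ))
      (MvPolynomial.psum {x // x ∈ Icc 1 L} ℤ k) = ps L k := by
    intro k
    unfold MvPolynomial.psum ps
    rw [map_sum, ← sum_attach (Icc 1 L)]
    refine sum_congr rfl fun x _ => ?_
    rw [map_pow, MvPolynomial.aeval_X, ← pow_mul, mul_comm]
  rw [map_mul, hE, map_natCast, map_mul, map_pow, map_neg, map_one, map_sum] at key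
  rw [key, Finset.mul_sum, sum_filter, Nat.sum_antidiagonal_eq_sum_range_succ_mk,
    Finset.sum_range_succ]
  simp only [lt_self_iff_false, if_false, add_zero]
  refine sum_congr rfl fun t ht => ?_
  rw [mem_range] at ht
  rw [if_pos ht, map_mul, map_mul, hE, hP, map_pow, map_neg, map_one]
  ring

end Pool.Q141.UF
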